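import Pool.Agent.H87.CPG.Engine

/-!
The prism and the heptagons with a hub.
-/

set_option autoImplicit false

namespace Pool.Agent.H87.CPG

/-- the final test of the engine: `φ hist` is a copy of `K` in the network -/
def finW {W : Type} [Fintype W] [DecidableEq W] (K : SimpleGraph W) [DecidableRel K.Adj]
    (φ : List ℕ → W → ℕ) (hist : List ℕ) (n : ℕ) (edges : List (ℕ × ℕ)) : Bool :=
  decide (∀ x y, K.Adj x y → (φ hist x, φ hist y) ∈ edges ∨ (φ hist y, φ hist x) ∈ edges) &&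
    decide (∀ x, φ hist x < n) && decide (∀ x y, φ hist x = φ hist y → x = y)

/-- the test with a root edge -/
def finR {W : Type} [Fintype W] [DecidableEq W] (K : SimpleGraph W) [DecidableRel K.Adj]
    (a b : W) (φ : List ℕ → W → ℕ) (hist : List ℕ) (n : ℕ) (edges : List (ℕ × ℕ)) : Bool :=
  finW K φ hist n edges && decide (φ hist a = 0) && decide (φ hist b = 1)

/-- `Q` contains a copy of `K` which does not use the circles of `P`. -/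
def Cont {W : Type} (K : SimpleGraph W) (P Q : List Circ) : Prop :=
  ∃ g : W → Circ, Function.Injective g ∧ (∀ x, g x ∈ Q) ∧ (∀ x, g x ∉ P) ∧
    ∀ x y, K.Adj x y → B (g x) (g y) = -1

theorem cont_of_out {W : Type} [Fintype W] [DecidableEq W] {K : SimpleGraph W}
    [DecidableRel K.Adj] {φ : List ℕ → W → ℕ} {P₀ P Q : List Circ} {A C : Circ}
    (hs : ∀ D ∈ P₀, D ∈ P) (hA : A ∉ P₀) (hC : C ∉ P₀)
    (h : Out P A C (finW K φ) Q) : Cont K P₀ Q := by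
  obtain ⟨X, n, edges, W', live, hist, hN, hf⟩ := h
  simp only [finW, Bool.and_eq_true, decide_eq_true_eq] at hf
  obtain ⟨⟨h1, h2⟩, h3⟩ := hf
  refine ⟨fun x => X (φ hist x), fun x y hxy => h3 x y (hN.inj _ (h2 x) _ (h2 y) hxy),
    fun x => hN.mem _ (h2 x), fun x => ?_, fun x y hxy => ?_⟩
  · show X (φ hist x) ∉ P₀
    by_cases h01 : 2 ≤ φ hist x
    · exact fun h => hN.new _ (h2 x) h01 (hs _ h)
    · have h01 : φ hist x = 0 ∨ φ hist x = 1 := by omega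
      rcases h01 with h | h
      · rw [h, hN.X0]
        exact hA
      · rw [h, hN.X1]
        exact hC
  rcases h1 x y hxy with h | h
  · exact (hN.adj _ h).2.2
  · rw [B_comm]
    exact (hN.adj _ h).2.2

theorem rooted_of_out {W : Type} [Fintype W] [DecidableEq W] {K : SimpleGraph W}
    [DecidableRel K.Adj] {a b : W} {φ : List ℕ → W → ℕ} {P Q : List Circ} {A C : Circ}
    (h : Out P A C (finR K a b φ) Q) : Rooted K a b P A C Q := by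
  obtain ⟨X, n, edges, W', live, hist, hN, hf⟩ := h
  simp only [finR, finW, Bool.and_eq_true, decide_eq_true_eq] at hf
  obtain ⟨⟨⟨⟨h1, h2⟩, h3⟩, ha⟩, hb⟩ := hf
  refine ⟨fun x => X (φ hist x), fun x y hxy => h3 x y (hN.inj _ (h2 x) _ (h2 y) hxy), ?_, ?_,
    fun x => hN.mem _ (h2 x), fun x hxa hxb => ?_, fun x y hxy => ?_⟩
  · show X (φ hist a) = A
    rw [ha, hN.X0]
  · show X (φ hist b) = C
    rw [hb, hN.X1]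
  · refine hN.new _ (h2 x) ?_
    by_contra hlt
    have h01 : φ hist x = 0 ∨ φ hist x = 1 := by omega
    rcases h01 with h | h
    · exact hxa (h3 x a (h.trans ha.symm))
    · exact hxb (h3 x b (h.trans hb.symm))
  · rcases h1 x y hxy with h | h
    · exact (hN.adj _ h).2.2
    · rw [B_comm]
      exact (hN.adj _ h).2.2

theorem Rooted.swap {W : Type} {K : SimpleGraph W} {a b : W} {P Q : List Circ} {A C : Circ}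
    (h : Rooted K a b P A C Q) : Rooted K b a P C A Q := by
  obtain ⟨g, h1, h2, h3, h4, h5, h6⟩ := h
  exact ⟨g, h1, h3, h2, h4, fun x hb ha => h5 x ha hb, h6⟩

/-- A strategy found by the checker, for an unrooted graph. -/
theorem force_cont {W : Type} [Fintype W] [DecidableEq W] {K : SimpleGraph W}
    [DecidableRel K.Adj] (act : List ℕ → (ℕ × ℕ × ℕ) × List (ℕ × ℕ × ℕ))
    (φ : List ℕ → W → ℕ) (k : ℕ)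
    (hc : chk act (finW K φ) k [] 4 edges4 [(0, 2, 3)] = true) {P₀ P : List Circ}
    (hs₀ : ∀ D ∈ P₀, D ∈ P) (hP : Valid P)
    {A C : Circ} (hA : A ∈ P) (hC : C ∈ P) (hA₀ : A ∉ P₀) (hC₀ : C ∉ P₀) (hAC : B A C = -1) :
    ForceN (Cont K P₀) (k + 2) P := by
  refine force_K4 hP hA hC hAC fun Q Y Z hQ hs hYP hZP hAY hCY hAZ hCZ hLive => ?_
  have hP' : ∀ D ∈ P, D ∈ Q := fun D hD => hs.subset hD
  have hCA : B C A = -1 := by rw [B_comm]; exact hAC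
  rcases hLive with ⟨w, L⟩ | ⟨w, L⟩
  · obtain ⟨X, hX⟩ := net_start hQ hP' hA hC hAC hYP hZP hAY hCY hAZ hCZ L
    exact (chk_sound act _ k hX hc).imp hQ fun Q' _ _ h => cont_of_out hs₀ hA₀ hC₀ h
  · obtain ⟨X, hX⟩ := net_start hQ hP' hC hA hCA hYP hZP hCY hAY hCZ hAZ L
    exact (chk_sound act _ k hX hc).imp hQ fun Q' _ _ h => cont_of_out hs₀ hC₀ hA₀ h

/-- A strategy found by the checker, for a graph with a root edge. -/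
theorem force_rooted {W : Type} [Fintype W] [DecidableEq W] {K : SimpleGraph W}
    [DecidableRel K.Adj] {a b : W} (act act' : List ℕ → (ℕ × ℕ × ℕ) × List (ℕ × ℕ × ℕ))
    (φ φ' : List ℕ → W → ℕ) (k : ℕ)
    (hc : chk act (finR K a b φ) k [] 4 edges4 [(0, 2, 3)] = true)
    (hc' : chk act' (finR K b a φ') k [] 4 edges4 [(0, 2, 3)] = true)
    {P : List Circ} (hP : Valid P)
    {A C : Circ} (hA : A ∈ P) (hC : C ∈ P) (hAC : B A C = -1) :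
    ForceN (Rooted K a b P A C) (k + 2) P := by
  refine force_K4 hP hA hC hAC fun Q Y Z hQ hs hYP hZP hAY hCY hAZ hCZ hLive => ?_
  have hP' : ∀ D ∈ P, D ∈ Q := fun D hD => hs.subset hD
  have hCA : B C A = -1 := by rw [B_comm]; exact hAC
  rcases hLive with ⟨w, L⟩ | ⟨w, L⟩
  · obtain ⟨X, hX⟩ := net_start hQ hP' hA hC hAC hYP hZP hAY hCY hAZ hCZ L
    exact (chk_sound act _ k hX hc).imp hQ fun Q' _ _ h => rooted_of_out h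
  · obtain ⟨X, hX⟩ := net_start hQ hP' hC hA hCA hYP hZP hCY hAY hCZ hAZ L
    exact (chk_sound act' _ k hX hc').imp hQ fun Q' _ _ h => (rooted_of_out h).swap

/-! ### the prism -/

instance : DecidableRel prism.Adj := fun x y =>
  decidable_of_iff ((x.1 ≠ y.1 ∧ x.2 = y.2) ∨ (x.2 ≠ y.2 ∧ x.1 = y.1)) (by
    rw [prism, SimpleGraph.boxProd_adj, SimpleGraph.top_adj, SimpleGraph.top_adj])

/-- the strategy for the prism -/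
def actP : List ℕ → (ℕ × ℕ × ℕ) × List (ℕ × ℕ × ℕ)
  | [] => ((0, 2, 3), [(0, 2, 4), (0, 3, 4)])
  | [0] => ((0, 3, 4), [])
  | _ => ((0, 2, 4), [])

/-- the copy of the prism in which the edge `a b` becomes `0 1` -/
def embP (a b : Fin 3 × Fin 2) (hist : List ℕ) (x : Fin 3 × Fin 2) : ℕ :=
  let y := if hist.getD 1 0 = 1 then 2 else 3
  let z := if hist.getD 1 0 = 1 then 3 else 2
  let s := x.2 + a.2
  if a.1 = b.1 then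
    let i := x.1 - a.1
    if s = 0 then (if i = 0 then 0 else if i = 1 then 4 else 5)
    else (if i = 0 then 1 else if i = 1 then z else y)
  else
    let i := (x.1 - a.1) * (b.1 - a.1)
    if s = 0 then (if i = 0 then 0 else if i = 1 then 1 else z)
    else (if i = 0 then 5 else if i = 1 then y else 4)

theorem chk_prism : ∀ a b : Fin 3 × Fin 2, prism.Adj a b →
    chk actP (finR prism a b (embP a b)) 2 [] 4 edges4 [(0, 2, 3)] = true := by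
  decide

theorem flex_prism : Flex prism := by
  intro a b hab
  exact ⟨4, fun P A C hP hA hC hAC => force_rooted actP actP (embP a b) (embP b a) 2
    (chk_prism a b hab) (chk_prism b a hab.symm) hP hA hC hAC⟩

/-! ### the heptagons with a hub -/

instance (n : ℕ) (E : List (ℕ × ℕ)) : DecidableRel (listGraph n E).Adj := by
  unfold listGraph
  infer_instance

instance (D : List (ℕ × ℕ)) : DecidableRel (hubHept D).Adj := by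
  unfold hubHept
  infer_instance

/-- the strategy for `[(0, 2), (0, 3), (0, 5), (3, 5)]` -/
def actA : List ℕ → (ℕ × ℕ × ℕ) × List (ℕ × ℕ × ℕ)
  | [] => ((0, 2, 3), [(0, 2, 4), (0, 3, 4), (2, 3, 4)])
  | [0] => ((0, 3, 4), [(0, 3, 5), (0, 4, 5), (2, 3, 4), (3, 4, 5)])
  | [0, 0] => ((2, 3, 4), [(2, 3, 6), (3, 4, 5)])
  | [0, 0, 0] => ((3, 4, 5), [])
  | [1, 0, 0] => ((2, 3, 6), [])
  | [1, 0] => ((0, 3, 5), [(2, 3, 4), (3, 4, 5)])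
  | [0, 1, 0] => ((3, 4, 5), [])
  | [1, 1, 0] => ((2, 3, 4), [])
  | [2, 0] => ((0, 3, 5), [(0, 4, 5), (3, 4, 5)])
  | [0, 2, 0] => ((3, 4, 5), [])
  | [1, 2, 0] => ((0, 4, 5), [])
  | [3, 0] => ((0, 3, 5), [(0, 4, 5), (2, 3, 4)])
  | [0, 3, 0] => ((2, 3, 4), [])
  | [1, 3, 0] => ((0, 4, 5), [])
  | [1] => ((0, 2, 4), [(0, 2, 5), (0, 4, 5), (2, 3, 4), (2, 4, 5)])
  | [0, 1] => ((2, 3, 4), [(2, 3, 6), (2, 4, 5)])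
  | [0, 0, 1] => ((2, 4, 5), [])
  | [1, 0, 1] => ((2, 3, 6), [])
  | [1, 1] => ((0, 2, 5), [(2, 3, 4), (2, 4, 5)])
  | [0, 1, 1] => ((2, 4, 5), [])
  | [1, 1, 1] => ((2, 3, 4), [])
  | [2, 1] => ((0, 2, 5), [(0, 4, 5), (2, 4, 5)])
  | [0, 2, 1] => ((2, 4, 5), [])
  | [1, 2, 1] => ((0, 4, 5), [])
  | [3, 1] => ((0, 2, 5), [(0, 4, 5), (2, 3, 4)])
  | [0, 3, 1] => ((2, 3, 4), [])
  | [1, 3, 1] => ((0, 4, 5), [])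
  | [2] => ((0, 2, 4), [(0, 2, 5), (0, 3, 4), (0, 4, 5), (2, 4, 5)])
  | [0, 2] => ((0, 3, 4), [(0, 3, 6), (0, 4, 5)])
  | [0, 0, 2] => ((0, 4, 5), [])
  | [1, 0, 2] => ((0, 3, 6), [])
  | [1, 2] => ((0, 2, 5), [(0, 4, 5), (2, 4, 5)])
  | [0, 1, 2] => ((2, 4, 5), [])
  | [1, 1, 2] => ((0, 4, 5), [])
  | [2, 2] => ((0, 2, 5), [(0, 3, 4), (2, 4, 5)])
  | [0, 2, 2] => ((2, 4, 5), [])
  | [1, 2, 2] => ((0, 3, 4), [])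
  | [3, 2] => ((0, 2, 5), [(0, 3, 4), (0, 4, 5)])
  | [0, 3, 2] => ((0, 4, 5), [])
  | [1, 3, 2] => ((0, 3, 4), [])
  | _ => ((0, 0, 0), [])

/-- the copies for `[(0, 2), (0, 3), (0, 5), (3, 5)]` -/
def embA : List ℕ → List ℕ
  | [0, 0, 0, 0] => [4, 7, 5, 0, 1, 2, 6, 3]
  | [0, 1, 0, 0] => [2, 7, 6, 4, 5, 0, 1, 3]
  | [0, 0, 1, 0] => [0, 1, 2, 4, 7, 5, 6, 3]
  | [0, 1, 1, 0] => [0, 6, 5, 4, 7, 2, 1, 3]
  | [0, 0, 2, 0] => [0, 1, 2, 4, 7, 5, 6, 3]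
  | [0, 1, 2, 0] => [3, 1, 2, 4, 7, 5, 6, 0]
  | [0, 0, 3, 0] => [0, 6, 5, 4, 7, 2, 1, 3]
  | [0, 1, 3, 0] => [3, 1, 2, 4, 7, 5, 6, 0]
  | [0, 0, 0, 1] => [4, 7, 5, 0, 1, 3, 6, 2]
  | [0, 1, 0, 1] => [3, 7, 6, 4, 5, 0, 1, 2]
  | [0, 0, 1, 1] => [0, 1, 3, 4, 7, 5, 6, 2]
  | [0, 1, 1, 1] => [0, 6, 5, 4, 7, 3, 1, 2]
  | [0, 0, 2, 1] => [0, 1, 3, 4, 7, 5, 6, 2]
  | [0, 1, 2, 1] => [2, 1, 3, 4, 7, 5, 6, 0]
  | [0, 0, 3, 1] => [0, 6, 5, 4, 7, 3, 1, 2]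
  | [0, 1, 3, 1] => [2, 1, 3, 4, 7, 5, 6, 0]
  | [0, 0, 0, 2] => [4, 7, 5, 2, 1, 3, 6, 0]
  | [0, 1, 0, 2] => [3, 7, 6, 4, 5, 2, 1, 0]
  | [0, 0, 1, 2] => [0, 1, 3, 4, 7, 5, 6, 2]
  | [0, 1, 1, 2] => [2, 1, 3, 4, 7, 5, 6, 0]
  | [0, 0, 2, 2] => [0, 1, 3, 4, 7, 5, 6, 2]
  | [0, 1, 2, 2] => [2, 6, 5, 4, 7, 3, 1, 0]
  | [0, 0, 3, 2] => [2, 1, 3, 4, 7, 5, 6, 0]
  | [0, 1, 3, 2] => [2, 6, 5, 4, 7, 3, 1, 0]
  | _ => []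

theorem chkA : chk actA (finW (hubHept [(0, 2), (0, 3), (0, 5), (3, 5)])
    fun hist x => (embA hist).getD x.val 0) 4 [] 4 edges4 [(0, 2, 3)] = true := by
  decide

/-- the strategy for `[(0, 2), (0, 3), (0, 4), (4, 6)]` -/
def actB : List ℕ → (ℕ × ℕ × ℕ) × List (ℕ × ℕ × ℕ)
  | [] => ((0, 2, 3), [(0, 2, 4), (0, 3, 4), (2, 3, 4)])
  | [0] => ((0, 3, 4), [(0, 3, 5), (2, 3, 4)])
  | [0, 0] => ((2, 3, 4), [(2, 3, 6), (3, 4, 6)])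
  | [0, 0, 0] => ((3, 4, 6), [(3, 4, 7), (3, 6, 7)])
  | [0, 0, 0, 0] => ((3, 6, 7), [])
  | [1, 0, 0, 0] => ((3, 4, 7), [])
  | [1, 0, 0] => ((2, 3, 6), [(2, 3, 7), (2, 6, 7)])
  | [0, 1, 0, 0] => ((2, 6, 7), [])
  | [1, 1, 0, 0] => ((2, 3, 7), [])
  | [1, 0] => ((0, 3, 5), [(0, 5, 6), (3, 5, 6)])
  | [0, 1, 0] => ((3, 5, 6), [])
  | [1, 1, 0] => ((0, 5, 6), [])
  | [1] => ((0, 2, 4), [(0, 2, 5), (2, 3, 4)])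
  | [0, 1] => ((2, 3, 4), [(2, 3, 6), (2, 4, 6)])
  | [0, 0, 1] => ((2, 4, 6), [(2, 4, 7), (2, 6, 7)])
  | [0, 0, 0, 1] => ((2, 6, 7), [])
  | [1, 0, 0, 1] => ((2, 4, 7), [])
  | [1, 0, 1] => ((2, 3, 6), [(2, 3, 7), (2, 6, 7)])
  | [0, 1, 0, 1] => ((2, 6, 7), [])
  | [1, 1, 0, 1] => ((2, 3, 7), [])
  | [1, 1] => ((0, 2, 5), [(0, 5, 6), (2, 5, 6)])
  | [0, 1, 1] => ((2, 5, 6), [])
  | [1, 1, 1] => ((0, 5, 6), [])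
  | [2] => ((0, 2, 4), [(0, 2, 5), (0, 3, 4)])
  | [0, 2] => ((0, 3, 4), [(0, 3, 6), (0, 4, 6)])
  | [0, 0, 2] => ((0, 4, 6), [(0, 4, 7), (0, 6, 7)])
  | [0, 0, 0, 2] => ((0, 6, 7), [])
  | [1, 0, 0, 2] => ((0, 4, 7), [])
  | [1, 0, 2] => ((0, 3, 6), [(0, 3, 7), (0, 6, 7)])
  | [0, 1, 0, 2] => ((0, 6, 7), [])
  | [1, 1, 0, 2] => ((0, 3, 7), [])
  | [1, 2] => ((0, 2, 5), [(0, 5, 6), (2, 5, 6)])
  | [0, 1, 2] => ((2, 5, 6), [])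
  | [1, 1, 2] => ((0, 5, 6), [])
  | _ => ((0, 0, 0), [])

/-- the copies for `[(0, 2), (0, 3), (0, 4), (4, 6)]` -/
def embB : List ℕ → List ℕ
  | [0, 0, 0, 0, 0] => [4, 5, 0, 2, 6, 8, 7, 3]
  | [0, 1, 0, 0, 0] => [4, 8, 7, 6, 2, 1, 0, 3]
  | [0, 0, 1, 0, 0] => [3, 1, 0, 4, 6, 8, 7, 2]
  | [0, 1, 1, 0, 0] => [2, 8, 7, 6, 4, 5, 0, 3]
  | [0, 0, 1, 0] => [0, 1, 2, 4, 5, 7, 6, 3]
  | [0, 1, 1, 0] => [3, 1, 2, 4, 5, 7, 6, 0]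
  | [0, 0, 0, 0, 1] => [4, 5, 0, 3, 6, 8, 7, 2]
  | [0, 1, 0, 0, 1] => [4, 8, 7, 6, 3, 1, 0, 2]
  | [0, 0, 1, 0, 1] => [3, 1, 0, 4, 6, 8, 7, 2]
  | [0, 1, 1, 0, 1] => [3, 8, 7, 6, 4, 5, 0, 2]
  | [0, 0, 1, 1] => [0, 1, 3, 4, 5, 7, 6, 2]
  | [0, 1, 1, 1] => [2, 1, 3, 4, 5, 7, 6, 0]
  | [0, 0, 0, 0, 2] => [4, 5, 2, 3, 6, 8, 7, 0]
  | [0, 1, 0, 0, 2] => [4, 8, 7, 6, 3, 1, 2, 0]
  | [0, 0, 1, 0, 2] => [3, 1, 2, 4, 6, 8, 7, 0]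
  | [0, 1, 1, 0, 2] => [3, 8, 7, 6, 4, 5, 2, 0]
  | [0, 0, 1, 2] => [0, 1, 3, 4, 5, 7, 6, 2]
  | [0, 1, 1, 2] => [2, 1, 3, 4, 5, 7, 6, 0]
  | _ => []

theorem chkB : chk actB (finW (hubHept [(0, 2), (0, 3), (0, 4), (4, 6)])
    fun hist x => (embB hist).getD x.val 0) 5 [] 4 edges4 [(0, 2, 3)] = true := by
  decide

/-- the strategy for `[(0, 2), (0, 3), (3, 6), (4, 6)]` -/
def actC : List ℕ → (ℕ × ℕ × ℕ) × List (ℕ × ℕ × ℕ)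
  | [] => ((0, 2, 3), [(0, 2, 4), (0, 3, 4)])
  | [0] => ((0, 3, 4), [(0, 3, 5), (0, 4, 5), (3, 4, 5)])
  | [0, 0] => ((0, 4, 5), [(0, 4, 6), (0, 5, 6), (3, 4, 5)])
  | [0, 0, 0] => ((0, 5, 6), [])
  | [1, 0, 0] => ((3, 4, 5), [(0, 4, 6), (3, 4, 7), (3, 5, 7)])
  | [0, 1, 0, 0] => ((3, 5, 7), [])
  | [1, 1, 0, 0] => ((3, 5, 7), [])
  | [2, 1, 0, 0] => ((0, 4, 6), [(3, 4, 7), (4, 6, 8)])
  | [0, 2, 1, 0, 0] => ((4, 6, 8), [])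
  | [1, 2, 1, 0, 0] => ((3, 4, 7), [])
  | [2, 0, 0] => ((0, 5, 6), [])
  | [1, 0] => ((3, 4, 5), [(0, 3, 5), (3, 5, 6), (4, 5, 6)])
  | [0, 1, 0] => ((3, 5, 6), [])
  | [1, 1, 0] => ((0, 3, 5), [(0, 5, 7), (4, 5, 6)])
  | [0, 1, 1, 0] => ((4, 5, 6), [(4, 6, 8), (5, 6, 8)])
  | [0, 0, 1, 1, 0] => ((5, 6, 8), [])
  | [1, 0, 1, 1, 0] => ((4, 6, 8), [])
  | [1, 1, 1, 0] => ((0, 5, 7), [(0, 7, 8), (5, 7, 8)])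
  | [0, 1, 1, 1, 0] => ((5, 7, 8), [])
  | [1, 1, 1, 1, 0] => ((0, 7, 8), [])
  | [2, 1, 0] => ((3, 5, 6), [])
  | [2, 0] => ((0, 4, 5), [(0, 3, 5), (0, 5, 6), (4, 5, 6)])
  | [0, 2, 0] => ((0, 5, 6), [])
  | [1, 2, 0] => ((0, 3, 5), [(3, 5, 7), (4, 5, 6)])
  | [0, 1, 2, 0] => ((4, 5, 6), [(4, 6, 8), (5, 6, 8)])
  | [0, 0, 1, 2, 0] => ((5, 6, 8), [])
  | [1, 0, 1, 2, 0] => ((4, 6, 8), [])
  | [1, 1, 2, 0] => ((3, 5, 7), [(3, 7, 8), (5, 7, 8)])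
  | [0, 1, 1, 2, 0] => ((5, 7, 8), [])
  | [1, 1, 1, 2, 0] => ((3, 7, 8), [])
  | [2, 2, 0] => ((0, 5, 6), [])
  | [1] => ((0, 2, 4), [(0, 2, 5), (0, 4, 5), (2, 4, 5)])
  | [0, 1] => ((0, 4, 5), [(0, 4, 6), (0, 5, 6), (2, 4, 5)])
  | [0, 0, 1] => ((0, 5, 6), [])
  | [1, 0, 1] => ((2, 4, 5), [(0, 4, 6), (2, 4, 7), (2, 5, 7)])
  | [0, 1, 0, 1] => ((2, 5, 7), [])
  | [1, 1, 0, 1] => ((2, 5, 7), [])
  | [2, 1, 0, 1] => ((0, 4, 6), [(2, 4, 7), (4, 6, 8)])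
  | [0, 2, 1, 0, 1] => ((4, 6, 8), [])
  | [1, 2, 1, 0, 1] => ((2, 4, 7), [])
  | [2, 0, 1] => ((0, 5, 6), [])
  | [1, 1] => ((2, 4, 5), [(0, 2, 5), (2, 5, 6), (4, 5, 6)])
  | [0, 1, 1] => ((2, 5, 6), [])
  | [1, 1, 1] => ((0, 2, 5), [(0, 5, 7), (4, 5, 6)])
  | [0, 1, 1, 1] => ((4, 5, 6), [(4, 6, 8), (5, 6, 8)])
  | [0, 0, 1, 1, 1] => ((5, 6, 8), [])
  | [1, 0, 1, 1, 1] => ((4, 6, 8), [])
  | [1, 1, 1, 1] => ((0, 5, 7), [(0, 7, 8), (5, 7, 8)])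
  | [0, 1, 1, 1, 1] => ((5, 7, 8), [])
  | [1, 1, 1, 1, 1] => ((0, 7, 8), [])
  | [2, 1, 1] => ((2, 5, 6), [])
  | [2, 1] => ((0, 4, 5), [(0, 2, 5), (0, 5, 6), (4, 5, 6)])
  | [0, 2, 1] => ((0, 5, 6), [])
  | [1, 2, 1] => ((0, 2, 5), [(2, 5, 7), (4, 5, 6)])
  | [0, 1, 2, 1] => ((4, 5, 6), [(4, 6, 8), (5, 6, 8)])
  | [0, 0, 1, 2, 1] => ((5, 6, 8), [])
  | [1, 0, 1, 2, 1] => ((4, 6, 8), [])
  | [1, 1, 2, 1] => ((2, 5, 7), [(2, 7, 8), (5, 7, 8)])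
  | [0, 1, 1, 2, 1] => ((5, 7, 8), [])
  | [1, 1, 1, 2, 1] => ((2, 7, 8), [])
  | [2, 2, 1] => ((0, 5, 6), [])
  | _ => ((0, 0, 0), [])

/-- the copies for `[(0, 2), (0, 3), (3, 6), (4, 6)]` -/
def embC : List ℕ → List ℕ
  | [0, 0, 0, 0] => [3, 1, 2, 4, 6, 7, 5, 0]
  | [0, 0, 1, 0, 0] => [0, 1, 2, 4, 7, 8, 5, 3]
  | [0, 1, 1, 0, 0] => [0, 1, 2, 4, 7, 8, 5, 3]
  | [0, 0, 2, 1, 0, 0] => [5, 7, 3, 0, 8, 9, 6, 4]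
  | [0, 1, 2, 1, 0, 0] => [0, 8, 6, 5, 7, 9, 3, 4]
  | [0, 2, 0, 0] => [3, 1, 2, 4, 6, 7, 5, 0]
  | [0, 0, 1, 0] => [0, 1, 2, 4, 6, 7, 5, 3]
  | [0, 0, 0, 1, 1, 0] => [3, 7, 0, 4, 8, 9, 6, 5]
  | [0, 1, 0, 1, 1, 0] => [3, 2, 0, 5, 8, 9, 6, 4]
  | [0, 0, 1, 1, 1, 0] => [3, 6, 4, 0, 8, 9, 7, 5]
  | [0, 1, 1, 1, 1, 0] => [3, 2, 4, 5, 8, 9, 7, 0]
  | [0, 2, 1, 0] => [0, 1, 2, 4, 6, 7, 5, 3]
  | [0, 0, 2, 0] => [3, 1, 2, 4, 6, 7, 5, 0]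
  | [0, 0, 0, 1, 2, 0] => [0, 7, 3, 4, 8, 9, 6, 5]
  | [0, 1, 0, 1, 2, 0] => [0, 2, 3, 5, 8, 9, 6, 4]
  | [0, 0, 1, 1, 2, 0] => [0, 6, 4, 3, 8, 9, 7, 5]
  | [0, 1, 1, 1, 2, 0] => [0, 2, 4, 5, 8, 9, 7, 3]
  | [0, 2, 2, 0] => [3, 1, 2, 4, 6, 7, 5, 0]
  | [0, 0, 0, 1] => [2, 1, 3, 4, 6, 7, 5, 0]
  | [0, 0, 1, 0, 1] => [0, 1, 3, 4, 7, 8, 5, 2]
  | [0, 1, 1, 0, 1] => [0, 1, 3, 4, 7, 8, 5, 2]
  | [0, 0, 2, 1, 0, 1] => [5, 7, 2, 0, 8, 9, 6, 4]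
  | [0, 1, 2, 1, 0, 1] => [0, 8, 6, 5, 7, 9, 2, 4]
  | [0, 2, 0, 1] => [2, 1, 3, 4, 6, 7, 5, 0]
  | [0, 0, 1, 1] => [0, 1, 3, 4, 6, 7, 5, 2]
  | [0, 0, 0, 1, 1, 1] => [2, 7, 0, 4, 8, 9, 6, 5]
  | [0, 1, 0, 1, 1, 1] => [2, 3, 0, 5, 8, 9, 6, 4]
  | [0, 0, 1, 1, 1, 1] => [2, 6, 4, 0, 8, 9, 7, 5]
  | [0, 1, 1, 1, 1, 1] => [2, 3, 4, 5, 8, 9, 7, 0]
  | [0, 2, 1, 1] => [0, 1, 3, 4, 6, 7, 5, 2]
  | [0, 0, 2, 1] => [2, 1, 3, 4, 6, 7, 5, 0]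
  | [0, 0, 0, 1, 2, 1] => [0, 7, 2, 4, 8, 9, 6, 5]
  | [0, 1, 0, 1, 2, 1] => [0, 3, 2, 5, 8, 9, 6, 4]
  | [0, 0, 1, 1, 2, 1] => [0, 6, 4, 2, 8, 9, 7, 5]
  | [0, 1, 1, 1, 2, 1] => [0, 3, 4, 5, 8, 9, 7, 2]
  | [0, 2, 2, 1] => [2, 1, 3, 4, 6, 7, 5, 0]
  | _ => []

theorem chkC : chk actC (finW (hubHept [(0, 2), (0, 3), (3, 6), (4, 6)])
    fun hist x => (embC hist).getD x.val 0) 6 [] 4 edges4 [(0, 2, 3)] = true := by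
  decide

end Pool.Agent.H87.CPG
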