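import Mathlib

/-!
The circle packing game of Builder and Spoiler: definitions.
-/

set_option autoImplicit false

open scoped SimpleGraph

namespace Pool.Agent.H87.CPG

/-- A circle in the plane `ℂ` with centre `c` and radius `r`. -/
structure Circ where
  /-- the centre -/
  c : ℂ
  /-- the radius -/
  r : ℝ
  pos : 0 < r

/-- The interior of a circle: an open disk. -/
def Circ.interior (C : Circ) : Set ℂ := Metric.ball C.c C.r

/-- The points of a circle. -/
def Circ.curve (C : Circ) : Set ℂ := Metric.sphere C.c C.r

/-- Two circles are tangent if they have exactly one common point. -/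
def Tangent (C D : Circ) : Prop := ∃! z : ℂ, z ∈ C.curve ∧ z ∈ D.curve

/-- A player may place the circle `C` when the circles of the list `P` have been placed. -/
def Legal (P : List Circ) (C : Circ) : Prop := ∀ D ∈ P, Disjoint C.interior D.interior

/-- The contact graph of the circles in the list `P`. -/
def contactGraph (P : List Circ) : SimpleGraph {C : Circ // C ∈ P} where
  Adj C D := C ≠ D ∧ Tangent C.1 D.1
  symm := ⟨fun _ _ h => ⟨h.1.symm, by
    obtain ⟨z, hz, hu⟩ := h.2
    exact ⟨z, ⟨hz.2, hz.1⟩, fun y hy => hu y ⟨hy.2, hy.1⟩⟩⟩⟩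
  loopless := ⟨fun _ h => h.1 rfl⟩

/-- The circles placed after `i` rounds, the last one first. At the beginning the circles of
`P₀` are there. In each round Builder places the circle given by his strategy `σ` and then
Spoiler places the circle `s i`. -/
def play (σ : List Circ → Circ) (s : ℕ → Circ) (P₀ : List Circ) : ℕ → List Circ
  | 0 => P₀
  | i + 1 => s i :: σ (play σ s P₀ i) :: play σ s P₀ i

/-- Builder has a winning strategy in the `H`-subgraph circle packing game, if the circles of
`P₀` are there at the beginning and Builder moves next. -/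
def BuilderWins {V : Type} (H : SimpleGraph V) (P₀ : List Circ) : Prop :=
  ∃ σ : List Circ → Circ, ∀ s : ℕ → Circ,
    (∀ i, Legal (σ (play σ s P₀ i) :: play σ s P₀ i) (s i)) →
      (∀ i, Legal (play σ s P₀ i) (σ (play σ s P₀ i))) ∧
        ∃ i, H ⊑ contactGraph (play σ s P₀ i)

/-- The wheel with `n` spokes: the hub `none` is adjacent to all `some i`, and `some i` is
adjacent to `some (i + 1)`. -/
def wheel (n : ℕ) : SimpleGraph (Option (ZMod n)) :=
  SimpleGraph.fromRel fun x y => x = none ∨ ∃ i, x = some i ∧ y = some (i + 1)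

/-- The triangular prism. -/
def prism : SimpleGraph (Fin 3 × Fin 2) := (⊤ : SimpleGraph (Fin 3)) □ (⊤ : SimpleGraph (Fin 2))

/-- The pieces which may be glued: wheels with at least three spokes, and the triangular
prism. -/
inductive Piece : ∀ {W : Type}, SimpleGraph W → Prop
  | wheel (n : ℕ) (hn : 3 ≤ n) : Piece (wheel n)
  | prism : Piece prism

/-- Apollonian networks. `Network n E F` says that `0, ..., n - 1` are the vertices, `E` is the
list of the edges and `F` is the list of the faces of an Apollonian network: one starts with a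
triangle, which has two faces, and inserts again and again a new vertex `n` in a face `a b c`. -/
inductive Network : ℕ → List (ℕ × ℕ) → List (ℕ × ℕ × ℕ) → Prop
  | triangle : Network 3 [(0, 1), (0, 2), (1, 2)] [(0, 1, 2), (0, 1, 2)]
  | insert {n : ℕ} {E : List (ℕ × ℕ)} {F F' : List (ℕ × ℕ × ℕ)} {a b c : ℕ}
      (h : Network n E (F ++ (a, b, c) :: F')) :
      Network (n + 1) ((a, n) :: (b, n) :: (c, n) :: E)
        ((a, b, n) :: (a, c, n) :: (b, c, n) :: (F ++ F'))

/-- The graph with vertices `0, ..., n - 1` and the edges listed in `E`. -/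
def listGraph (n : ℕ) (E : List (ℕ × ℕ)) : SimpleGraph (Fin n) :=
  SimpleGraph.fromRel fun i j => ((i : ℕ), (j : ℕ)) ∈ E

/-- The heptagon `0 1 2 3 4 5 6` with the diagonals listed in `D`, and a vertex `7` which is
adjacent to all vertices of the heptagon. -/
def hubHept (D : List (ℕ × ℕ)) : SimpleGraph (Fin 8) :=
  listGraph 8 ([(0, 7), (1, 7), (2, 7), (3, 7), (4, 7), (5, 7), (6, 7),
    (0, 1), (1, 2), (2, 3), (3, 4), (4, 5), (5, 6), (0, 6)] ++ D)

/-- The triangulations of the heptagon by diagonals, up to symmetry, other than the one whose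
diagonals have a common end. -/
def heptTriangulations : List (List (ℕ × ℕ)) :=
  [[(0, 2), (0, 3), (0, 5), (3, 5)], [(0, 2), (0, 3), (0, 4), (4, 6)],
    [(0, 2), (0, 3), (3, 6), (4, 6)]]

/-- The smallest class of graphs which contains the Apollonian networks with at most seven
vertices and the graphs `hubHept D` for the three triangulations `D` above, and which is closed
under taking subgraphs, under disjoint unions, and under gluing a piece `K` along an edge: the
edge `a b` of `K` is identified with the edge `u v` of `G`. -/
inductive Cls : ∀ {V : Type}, SimpleGraph V → Prop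
  | network {n : ℕ} {E : List (ℕ × ℕ)} {F : List (ℕ × ℕ × ℕ)} (h : Network n E F)
      (hn : n ≤ 7) : Cls (listGraph n E)
  | hept {D : List (ℕ × ℕ)} (hD : D ∈ heptTriangulations) : Cls (hubHept D)
  | sub {V W : Type} {G : SimpleGraph V} {H : SimpleGraph W} (hG : Cls G) (h : H ⊑ G) : Cls H
  | union {V W : Type} {G : SimpleGraph V} {H : SimpleGraph W} (hG : Cls G) (hH : Cls H) :
      Cls (G ⊕g H)
  | glue {V W X : Type} {G : SimpleGraph V} {K : SimpleGraph W} {H : SimpleGraph X}
      (hG : Cls G) (hK : Piece K) (u v : V) (a b : W) (huv : G.Adj u v) (hab : K.Adj a b)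
      (f : V → X) (g : W → X) (hf : Function.Injective f) (hg : Function.Injective g)
      (hu : f u = g a) (hv : f v = g b) (hfg : ∀ x y, f x = g y → x = u ∨ x = v)
      (hcov : ∀ z, (∃ x, f x = z) ∨ ∃ y, g y = z)
      (hadj : ∀ p q, H.Adj p q → (∃ x y, G.Adj x y ∧ f x = p ∧ f y = q) ∨
        ∃ x y, K.Adj x y ∧ g x = p ∧ g y = q) : Cls H

end Pool.Agent.H87.CPG
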