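import Pool.Agent.H87.CPG.Wheel

/-!
A checker for strategies which only place inscribed circles in live faces.
-/

set_option autoImplicit false

namespace Pool.Agent.H87.CPG

/-- the three new faces -/
def newFaces (F : ℕ × ℕ × ℕ) (n : ℕ) : List (ℕ × ℕ × ℕ) :=
  [(F.1, F.2.1, n), (F.1, F.2.2, n), (F.2.1, F.2.2, n)]

/-- the three new edges -/
def newEdges (F : ℕ × ℕ × ℕ) (n : ℕ) : List (ℕ × ℕ) := [(F.1, n), (F.2.1, n), (F.2.2, n)]

/-- The checker: `act` gives the face in which Builder plays, and the live faces which he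
keeps in mind, `hist` is the list of the numbers of the destroyed faces. -/
def chk (act : List ℕ → (ℕ × ℕ × ℕ) × List (ℕ × ℕ × ℕ))
    (fin : List ℕ → ℕ → List (ℕ × ℕ) → Bool) :
    ℕ → List ℕ → ℕ → List (ℕ × ℕ) → List (ℕ × ℕ × ℕ) → Bool
  | 0, hist, n, edges, _ => fin hist n edges
  | k + 1, hist, n, edges, live =>
    (live.contains (act hist).1 &&
    ((act hist).2.all fun G => (newFaces (act hist).1 n).contains G ||
      (live.contains G && G != (act hist).1)) &&
    (List.range (max 1 (act hist).2.length)).all fun t =>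
      chk act fin k (t :: hist) (n + 1) (newEdges (act hist).1 n ++ edges)
        ((act hist).2.filter fun G => G != (act hist).2.getD t (0, 0, 0))) ||
    fin hist n edges

/-- A network of circles with live faces. -/
structure Net (P Q : List Circ) (A C : Circ) (X : ℕ → Circ) (n : ℕ) (edges : List (ℕ × ℕ))
    (W : ℕ × ℕ × ℕ → Vec) (live : List (ℕ × ℕ × ℕ)) : Prop where
  val : Valid Q
  sub : ∀ D ∈ P, D ∈ Q
  X0 : X 0 = A
  X1 : X 1 = C
  le : 2 ≤ n
  mem : ∀ i, i < n → X i ∈ Q
  inj : ∀ i, i < n → ∀ j, j < n → X i = X j → i = j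
  new : ∀ i, i < n → 2 ≤ i → X i ∉ P
  adj : ∀ e ∈ edges, e.1 < n ∧ e.2 < n ∧ B (X e.1) (X e.2) = -1
  lt : ∀ F ∈ live, F.1 < n ∧ F.2.1 < n ∧ F.2.2 < n
  face : ∀ F ∈ live, Live Q (X F.1) (X F.2.1) (X F.2.2) (W F)
  ind : ∀ F ∈ live, ∀ G ∈ live, F ≠ G → Ind Q (W F) (W G)

/-- what the checker guarantees -/
def Out (P : List Circ) (A C : Circ) (fin : List ℕ → ℕ → List (ℕ × ℕ) → Bool)
    (Q : List Circ) : Prop :=
  ∃ (X : ℕ → Circ) (n : ℕ) (edges : List (ℕ × ℕ)) (W : ℕ × ℕ × ℕ → Vec)
    (live : List (ℕ × ℕ × ℕ)) (hist : List ℕ), Net P Q A C X n edges W live ∧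
      fin hist n edges = true

/-- Builder places the circle inscribed in the face `F`. -/
theorem Net.step {P Q : List Circ} {A C : Circ} {X : ℕ → Circ} {n : ℕ}
    {edges : List (ℕ × ℕ)} {W : ℕ × ℕ × ℕ → Vec} {live : List (ℕ × ℕ × ℕ)}
    (h : Net P Q A C X n edges W live) {F : ℕ × ℕ × ℕ} (hF : F ∈ live)
    {keep : List (ℕ × ℕ × ℕ)}
    (hk : ∀ G ∈ keep, G ∈ newFaces F n ∨ (G ∈ live ∧ G ≠ F)) :
    ∃ (E : Circ) (W' : ℕ × ℕ × ℕ → Vec), Legal Q E ∧
      Net P (E :: Q) A C (Function.update X n E) (n + 1) (newEdges F n ++ edges) W' keep := by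
  obtain ⟨l1, l2, l3⟩ := h.lt F hF
  have LF := h.face F hF
  obtain ⟨E, hE, hl⟩ := LF.stack h.val
  have hEQ := hl.notMem
  have up : ∀ i, i < n → Function.update X n E i = X i := fun i hi =>
    Function.update_of_ne (by omega) _ _
  have upn : Function.update X n E n = E := Function.update_self _ _ _
  have t1 : B (X F.1) E = -1 := LF.toTri.tangent hE
  have t2 : B (X F.2.1) E = -1 := LF.swap12.toTri.tangent (by rw [hE]; abel)
  have t3 : B (X F.2.2) E = -1 := LF.swap23.swap12.toTri.tangent (by rw [hE]; abel)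
  have n0 : (n : ℕ) ≠ 0 := by have := h.le; omega
  -- the three new faces
  obtain ⟨w, hw⟩ : ∃ w, w = W F := ⟨_, rfl⟩
  rw [← hw] at LF hE
  have c12 : Live (E :: Q) (X F.1) (X F.2.1) E (vec (X F.1) + vec (X F.2.1) + w) :=
    LF.child h.val hE
  have c13 : Live (E :: Q) (X F.1) (X F.2.2) E (vec (X F.1) + vec (X F.2.2) + w) :=
    LF.swap23.child h.val (by rw [hE]; abel)
  have c23 : Live (E :: Q) (X F.2.1) (X F.2.2) E (vec (X F.2.1) + vec (X F.2.2) + w) :=
    LF.swap12.swap23.child h.val (by rw [hE]; abel)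
  have i1 : Ind (E :: Q) (vec (X F.1) + vec (X F.2.1) + w)
      (vec (X F.1) + vec (X F.2.2) + w) := ind_child LF.mX hE
  have i2 : Ind (E :: Q) (vec (X F.1) + vec (X F.2.1) + w)
      (vec (X F.2.1) + vec (X F.2.2) + w) := by
    have := ind_child (P := Q) (X := X F.2.1) (Y := X F.1) (Z := X F.2.2) (E := E) (w := w)
      LF.mY (by rw [hE]; abel)
    rwa [add_comm (vec (X F.2.1)) (vec (X F.1))] at this
  have i3 : Ind (E :: Q) (vec (X F.1) + vec (X F.2.2) + w)
      (vec (X F.2.1) + vec (X F.2.2) + w) := by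
    have := ind_child (P := Q) (X := X F.2.2) (Y := X F.1) (Z := X F.2.1) (E := E) (w := w)
      LF.mZ (by rw [hE]; abel)
    rwa [add_comm (vec (X F.2.2)) (vec (X F.1)), add_comm (vec (X F.2.2)) (vec (X F.2.1))]
      at this
  -- the new vectors
  obtain ⟨W', hW'⟩ : ∃ W' : ℕ × ℕ × ℕ → Vec, W' = fun G =>
      if G = (F.1, F.2.1, n) then vec (X F.1) + vec (X F.2.1) + w
      else if G = (F.1, F.2.2, n) then vec (X F.1) + vec (X F.2.2) + w
      else if G = (F.2.1, F.2.2, n) then vec (X F.2.1) + vec (X F.2.2) + w else W G :=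
    ⟨_, rfl⟩
  have hd1 : F.2.1 ≠ F.2.2 := fun e => ne_of_B LF.YZ (by rw [e])
  have hd2 : F.1 ≠ F.2.1 := fun e => ne_of_B LF.XY (by rw [e])
  have hd3 : F.1 ≠ F.2.2 := fun e => ne_of_B LF.XZ (by rw [e])
  have w1 : W' (F.1, F.2.1, n) = vec (X F.1) + vec (X F.2.1) + w := by
    rw [hW']
    simp
  have w2 : W' (F.1, F.2.2, n) = vec (X F.1) + vec (X F.2.2) + w := by
    rw [hW']
    simp [hd1.symm]
  have w3 : W' (F.2.1, F.2.2, n) = vec (X F.2.1) + vec (X F.2.2) + w := by
    rw [hW']
    simp [hd2.symm, hd1.symm]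
  have w4 : ∀ G ∈ live, W' G = W G := by
    intro G hG
    have hlt := (h.lt G hG).2.2
    have e : G.2.2 ≠ n := by omega
    have e1 : G ≠ (F.1, F.2.1, n) := fun h => e (by rw [h])
    have e2 : G ≠ (F.1, F.2.2, n) := fun h => e (by rw [h])
    have e3 : G ≠ (F.2.1, F.2.2, n) := fun h => e (by rw [h])
    rw [hW']
    simp [e1, e2, e3]
  have hsub : ∀ D ∈ Q, D ∈ E :: Q := fun D hD => List.mem_cons_of_mem _ hD
  have hcase : ∀ G ∈ keep, (G = (F.1, F.2.1, n) ∨ G = (F.1, F.2.2, n) ∨
      G = (F.2.1, F.2.2, n)) ∨ (G ∈ live ∧ G ≠ F) := by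
    intro G hG
    rcases hk G hG with h | h
    · left
      simpa [newFaces] using h
    · exact Or.inr h
  -- independence of new and old faces
  have no : ∀ G ∈ live, G ≠ F → ∀ i j, X i ∈ Q → X j ∈ Q →
      Ind (E :: Q) (vec (X i) + vec (X j) + w) (W G) := by
    intro G hG hGF i j hi hj
    have h1 := h.ind F hF G hG (Ne.symm hGF)
    rw [← hw] at h1
    exact ind_old hi hj h1
  refine ⟨E, W', hl, ?_⟩
  constructor
  · exact h.val.cons hl
  · exact fun D hD => hsub D (h.sub D hD)
  · rw [up 0 (by have := h.le; omega)]; exact h.X0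
  · rw [up 1 (by have := h.le; omega)]; exact h.X1
  · have := h.le
    omega
  · intro i hi
    by_cases hin : i = n
    · subst hin
      rw [upn]
      exact List.mem_cons_self
    · rw [up i (by omega)]
      exact hsub _ (h.mem i (by omega))
  · intro i hi j hj hij
    by_cases hin : i = n
    · by_cases hjn : j = n
      · rw [hin, hjn]
      · rw [hin, upn, up j (by omega)] at hij
        exact absurd (hij ▸ h.mem j (by omega)) hEQ
    · by_cases hjn : j = n
      · rw [hjn, upn, up i (by omega)] at hij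
        exact absurd (hij.symm ▸ h.mem i (by omega)) hEQ
      · rw [up i (by omega), up j (by omega)] at hij
        exact h.inj i (by omega) j (by omega) hij
  · intro i hi h2
    by_cases hin : i = n
    · rw [hin, upn]
      exact fun hP => hEQ (h.sub E hP)
    · rw [up i (by omega)]
      exact h.new i (by omega) h2
  · intro e he
    rcases List.mem_append.1 he with he | he
    · simp only [newEdges, List.mem_cons, List.not_mem_nil, or_false] at he
      rcases he with rfl | rfl | rfl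
      · refine ⟨by simp only; omega, by simp only; omega, ?_⟩
        simp only [upn, up _ l1]
        exact t1
      · refine ⟨by simp only; omega, by simp only; omega, ?_⟩
        simp only [upn, up _ l2]
        exact t2
      · refine ⟨by simp only; omega, by simp only; omega, ?_⟩
        simp only [upn, up _ l3]
        exact t3
    · obtain ⟨e1, e2, hadj⟩ := h.adj e he
      refine ⟨by omega, by omega, ?_⟩
      rw [up _ e1, up _ e2]
      exact hadj
  · intro G hG
    rcases hcase G hG with (rfl | rfl | rfl) | ⟨hG1, -⟩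
    · exact ⟨by simp only; omega, by simp only; omega, by simp only; omega⟩
    · exact ⟨by simp only; omega, by simp only; omega, by simp only; omega⟩
    · exact ⟨by simp only; omega, by simp only; omega, by simp only; omega⟩
    · obtain ⟨a1, a2, a3⟩ := h.lt G hG1
      exact ⟨by omega, by omega, by omega⟩
  · intro G hG
    rcases hcase G hG with (rfl | rfl | rfl) | ⟨hG1, hG2⟩
    · simp only [upn, up _ l1, up _ l2, w1]
      exact c12
    · simp only [upn, up _ l1, up _ l3, w2]
      exact c13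
    · simp only [upn, up _ l2, up _ l3, w3]
      exact c23
    · obtain ⟨a1, a2, a3⟩ := h.lt G hG1
      rw [up _ a1, up _ a2, up _ a3, w4 G hG1]
      have h1 := h.ind F hF G hG1 (Ne.symm hG2)
      rw [← hw] at h1
      exact LF.stay (h.face G hG1) h1 hE hl
  · intro G hG G' hG' hne
    rcases hcase G hG with (rfl | rfl | rfl) | ⟨hG1, hG2⟩ <;>
      rcases hcase G' hG' with (rfl | rfl | rfl) | ⟨hG1', hG2'⟩
    · exact absurd rfl hne
    · rw [w1, w2]; exact i1
    · rw [w1, w3]; exact i2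
    · rw [w1, w4 G' hG1']
      exact no G' hG1' hG2' _ _ LF.mX LF.mY
    · rw [w1, w2]; exact i1.symm
    · exact absurd rfl hne
    · rw [w2, w3]; exact i3
    · rw [w2, w4 G' hG1']
      exact no G' hG1' hG2' _ _ LF.mX LF.mZ
    · rw [w1, w3]; exact i2.symm
    · rw [w2, w3]; exact i3.symm
    · exact absurd rfl hne
    · rw [w3, w4 G' hG1']
      exact no G' hG1' hG2' _ _ LF.mY LF.mZ
    · rw [w1, w4 G hG1]
      exact (no G hG1 hG2 _ _ LF.mX LF.mY).symm
    · rw [w2, w4 G hG1]
      exact (no G hG1 hG2 _ _ LF.mX LF.mZ).symm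
    · rw [w3, w4 G hG1]
      exact (no G hG1 hG2 _ _ LF.mY LF.mZ).symm
    · rw [w4 G hG1, w4 G' hG1']
      exact (h.ind G hG1 G' hG1' hne).mono hsub

theorem Net.cons {P Q : List Circ} {A C : Circ} {X : ℕ → Circ} {n : ℕ}
    {edges : List (ℕ × ℕ)} {W : ℕ × ℕ × ℕ → Vec} {live live' : List (ℕ × ℕ × ℕ)}
    (h : Net P Q A C X n edges W live) {S : Circ} (hS : Legal Q S)
    (hl : ∀ G ∈ live', G ∈ live ∧ Bf (W G) (vec S) ≤ -1) :
    Net P (S :: Q) A C X n edges W live' :=
  ⟨h.val.cons hS, fun D hD => List.mem_cons_of_mem _ (h.sub D hD), h.X0, h.X1, h.le,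
    fun i hi => List.mem_cons_of_mem _ (h.mem i hi), h.inj, h.new, h.adj,
    fun F hF => h.lt F (hl F hF).1, fun F hF => (h.face F (hl F hF).1).cons (hl F hF).2,
    fun F hF G hG hne => (h.ind F (hl F hF).1 G (hl G hG).1 hne).mono
      fun D hD => List.mem_cons_of_mem _ hD⟩

/-- Soundness of the checker. -/
theorem chk_sound {P : List Circ} {A C : Circ}
    (act : List ℕ → (ℕ × ℕ × ℕ) × List (ℕ × ℕ × ℕ))
    (fin : List ℕ → ℕ → List (ℕ × ℕ) → Bool) :
    ∀ (k : ℕ) {hist : List ℕ} {Q : List Circ} {X : ℕ → Circ} {n : ℕ}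
      {edges : List (ℕ × ℕ)} {W : ℕ × ℕ × ℕ → Vec} {live : List (ℕ × ℕ × ℕ)},
      Net P Q A C X n edges W live → chk act fin k hist n edges live = true →
        ForceN (Out P A C fin) k Q
  | 0, hist, Q, X, n, edges, W, live, h, hc => ⟨X, n, edges, W, live, hist, h, hc⟩
  | k + 1, hist, Q, X, n, edges, W, live, h, hc => by
    rw [chk] at hc
    simp only [Bool.and_eq_true, List.contains_iff_mem, List.all_eq_true, Bool.or_eq_true,
      bne_iff_ne] at hc
    rcases hc with hc | hc
    swap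
    · exact Or.inl ⟨X, n, edges, W, live, hist, h, hc⟩
    obtain ⟨⟨hF, hk⟩, hall⟩ := hc
    obtain ⟨keep, hkeep⟩ : ∃ keep, keep = (act hist).2 := ⟨_, rfl⟩
    rw [← hkeep] at hk hall
    obtain ⟨E, W', hl, hN⟩ := h.step hF hk
    refine ForceN.step E hl fun S hS => ?_
    by_cases hex : ∃ G ∈ keep, -1 < Bf (W' G) (vec S)
    · obtain ⟨G, hG, hGS⟩ := hex
      obtain ⟨t, ht, hGt⟩ := List.getElem_of_mem hG
      have hc := hall t (List.mem_range.2 (by omega))
      have hget : keep.getD t (0, 0, 0) = G := by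
        rw [List.getD_eq_getElem _ _ ht, hGt]
      rw [hget] at hc
      refine chk_sound act fin k (hN.cons hS (live' := keep.filter fun G' => G' != G)
        fun G' hG' => ?_) hc
      rw [List.mem_filter, bne_iff_ne] at hG'
      refine ⟨hG'.1, ?_⟩
      rcases (hN.ind G hG G' hG'.1 (Ne.symm hG'.2)).alive hS with h1 | h1
      · linarith
      · exact h1
    · push Not at hex
      have hc := hall 0 (List.mem_range.2 (by omega))
      refine chk_sound act fin k (hN.cons hS (live' := keep.filter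
        fun G' => G' != keep.getD 0 (0, 0, 0)) fun G' hG' => ?_) hc
      rw [List.mem_filter] at hG'
      exact ⟨hG'.1, hex G' hG'.1⟩

/-- the edges of the complete graph on `0, 1, 2, 3` -/
def edges4 : List (ℕ × ℕ) := [(0, 1), (0, 2), (0, 3), (1, 2), (1, 3), (2, 3)]

/-- The start of the engine. -/
theorem net_start {P Q : List Circ} {A C Y Z : Circ} (hQ : Valid Q) (hP : ∀ D ∈ P, D ∈ Q)
    (hA : A ∈ P) (hC : C ∈ P) (hAC : B A C = -1) (hYP : Y ∉ P) (hZP : Z ∉ P)
    (hAY : B A Y = -1) (hCY : B C Y = -1) (hAZ : B A Z = -1) (hCZ : B C Z = -1) {w : Vec}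
    (hL : Live Q A Y Z w) :
    ∃ X : ℕ → Circ, Net P Q A C X 4 edges4 (fun _ => w) [(0, 2, 3)] := by
  have hYZ : B Y Z = -1 := hL.YZ
  refine ⟨fun i => if i = 0 then A else if i = 1 then C else if i = 2 then Y else Z, ?_⟩
  have d1 : A ≠ C := ne_of_B hAC
  have d2 : A ≠ Y := ne_of_B hAY
  have d3 : A ≠ Z := ne_of_B hAZ
  have d4 : C ≠ Y := ne_of_B hCY
  have d5 : C ≠ Z := ne_of_B hCZ
  have d6 : Y ≠ Z := ne_of_B hYZ
  constructor
  · exact hQ
  · exact hP
  · simp
  · simp
  · norm_num
  · intro i hi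
    interval_cases i
    · simpa using hP A hA
    · simpa using hP C hC
    · simpa using hL.mY
    · simpa using hL.mZ
  · intro i hi j hj hij
    interval_cases i <;> interval_cases j <;>
      simp [d1, d2, d3, d4, d5, d6, d1.symm, d2.symm, d3.symm, d4.symm, d5.symm, d6.symm] at hij ⊢
  · intro i hi h2
    interval_cases i
    · simpa using hYP
    · simpa using hZP
  · intro e he
    simp only [edges4, List.mem_cons, List.not_mem_nil, or_false] at he
    rcases he with rfl | rfl | rfl | rfl | rfl | rfl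
    · exact ⟨by norm_num, by norm_num, by simpa using hAC⟩
    · exact ⟨by norm_num, by norm_num, by simpa using hAY⟩
    · exact ⟨by norm_num, by norm_num, by simpa using hAZ⟩
    · exact ⟨by norm_num, by norm_num, by simpa using hCY⟩
    · exact ⟨by norm_num, by norm_num, by simpa using hCZ⟩
    · exact ⟨by norm_num, by norm_num, by simpa using hYZ⟩
  · intro F hF
    rw [List.mem_singleton] at hF
    subst hF
    norm_num
  · intro F hF
    rw [List.mem_singleton] at hF
    subst hF
    simpa using hL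
  · intro F hF G hG hne
    rw [List.mem_singleton] at hF hG
    exact absurd (hF.trans hG.symm) hne

end Pool.Agent.H87.CPG
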