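import Pool.Agent.H87.CPG.Force

/-!
Triples of mutually tangent circles and live faces.
-/

set_option autoImplicit false

namespace Pool.Agent.H87.CPG

/-- Three mutually tangent circles of `P`, and the vector of the circle through their tangent
points. -/
structure Tri (P : List Circ) (X Y Z : Circ) (w : Vec) : Prop where
  mX : X ∈ P
  mY : Y ∈ P
  mZ : Z ∈ P
  XY : B X Y = -1
  XZ : B X Z = -1
  YZ : B Y Z = -1
  ww : Bf w w = 1
  wX : Bf w (vec X) = 0
  wY : Bf w (vec Y) = 0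
  wZ : Bf w (vec Z) = 0

theorem Tri.swap12 {P : List Circ} {X Y Z : Circ} {w : Vec} (h : Tri P X Y Z w) :
    Tri P Y X Z w :=
  ⟨h.mY, h.mX, h.mZ, by rw [B_comm]; exact h.XY, h.YZ, h.XZ, h.ww, h.wY, h.wX, h.wZ⟩

theorem Tri.swap23 {P : List Circ} {X Y Z : Circ} {w : Vec} (h : Tri P X Y Z w) :
    Tri P X Z Y w :=
  ⟨h.mX, h.mZ, h.mY, h.XZ, h.XY, by rw [B_comm]; exact h.YZ, h.ww, h.wX, h.wZ, h.wY⟩

/-- A live face: all other circles are outside of the circle `w`. -/
structure Live (P : List Circ) (X Y Z : Circ) (w : Vec) : Prop extends Tri P X Y Z w where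
  pos : 0 < w 0
  out : ∀ S ∈ P, S ≠ X → S ≠ Y → S ≠ Z → Bf w (vec S) ≤ -1

theorem Live.swap12 {P : List Circ} {X Y Z : Circ} {w : Vec} (h : Live P X Y Z w) :
    Live P Y X Z w :=
  ⟨h.toTri.swap12, h.pos, fun S hS h1 h2 h3 => h.out S hS h2 h1 h3⟩

theorem Live.swap23 {P : List Circ} {X Y Z : Circ} {w : Vec} (h : Live P X Y Z w) :
    Live P X Z Y w :=
  ⟨h.toTri.swap23, h.pos, fun S hS h1 h2 h3 => h.out S hS h1 h3 h2⟩

theorem ne_of_B {X Y : Circ} (h : B X Y = -1) : X ≠ Y := by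
  rintro rfl
  rw [B_self] at h
  norm_num at h

/-- The circle inscribed in a face. -/
theorem Tri.stack {P : List Circ} {X Y Z : Circ} {w : Vec} (h : Tri P X Y Z w)
    (hpos : 0 < vec X 0 + vec Y 0 + vec Z 0 + 2 * w 0)
    (hout : ∀ S ∈ P, S ≠ X → S ≠ Y → S ≠ Z →
      Bf (vec X + vec Y + vec Z + (2 : ℝ) • w) (vec S) ≤ -1) :
    ∃ E, vec E = vec X + vec Y + vec Z + (2 : ℝ) • w ∧ Legal P E := by
  have hXX := vec_self X
  have hYY := vec_self Y
  have hZZ := vec_self Z
  have hXY : Bf (vec X) (vec Y) = -1 := h.XY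
  have hXZ : Bf (vec X) (vec Z) = -1 := h.XZ
  have hYZ : Bf (vec Y) (vec Z) = -1 := h.YZ
  have hYX : Bf (vec Y) (vec X) = -1 := by rw [Bf_comm]; exact hXY
  have hZX : Bf (vec Z) (vec X) = -1 := by rw [Bf_comm]; exact hXZ
  have hZY : Bf (vec Z) (vec Y) = -1 := by rw [Bf_comm]; exact hYZ
  have hwX := h.wX
  have hwY := h.wY
  have hwZ := h.wZ
  have hXw : Bf (vec X) w = 0 := by rw [Bf_comm]; exact hwX
  have hYw : Bf (vec Y) w = 0 := by rw [Bf_comm]; exact hwY
  have hZw : Bf (vec Z) w = 0 := by rw [Bf_comm]; exact hwZ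
  have hww := h.ww
  obtain ⟨E, hE⟩ := exists_circ (vec X + vec Y + vec Z + (2 : ℝ) • w) (by
    simp only [Bf_add_left, Bf_add_right, Bf_smul_left, Bf_smul_right, hXX, hYY, hZZ, hXY, hXZ,
      hYZ, hYX, hZX, hZY, hwX, hwY, hwZ, hXw, hYw, hZw, hww]
    norm_num) (by
    simpa using hpos)
  refine ⟨E, hE, (legal_iff P E).2 fun S hS => ?_⟩
  rw [B, hE]
  by_cases h1 : S = X
  · subst h1
    simp only [Bf_add_left, Bf_smul_left, hXX, hYX, hZX, hwX]
    norm_num
  by_cases h2 : S = Y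
  · subst h2
    simp only [Bf_add_left, Bf_smul_left, hYY, hXY, hZY, hwY]
    norm_num
  by_cases h3 : S = Z
  · subst h3
    simp only [Bf_add_left, Bf_smul_left, hZZ, hXZ, hYZ, hwZ]
    norm_num
  exact hout S hS h1 h2 h3

theorem Tri.tangent {P : List Circ} {X Y Z E : Circ} {w : Vec} (h : Tri P X Y Z w)
    (hE : vec E = vec X + vec Y + vec Z + (2 : ℝ) • w) : B X E = -1 := by
  have hXX := vec_self X
  have hXY : Bf (vec X) (vec Y) = -1 := h.XY
  have hXZ : Bf (vec X) (vec Z) = -1 := h.XZ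
  have hXw : Bf (vec X) w = 0 := by rw [Bf_comm]; exact h.wX
  rw [B, hE]
  simp only [Bf_add_right, Bf_smul_right, hXX, hXY, hXZ, hXw]
  norm_num

/-- The new face `X Y E`. -/
theorem Tri.child {P : List Circ} {X Y Z E : Circ} {w : Vec} (h : Tri P X Y Z w)
    (hE : vec E = vec X + vec Y + vec Z + (2 : ℝ) • w) :
    Tri (E :: P) X Y E (vec X + vec Y + w) := by
  have hXX := vec_self X
  have hYY := vec_self Y
  have hXY : Bf (vec X) (vec Y) = -1 := h.XY
  have hXZ : Bf (vec X) (vec Z) = -1 := h.XZ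
  have hYZ : Bf (vec Y) (vec Z) = -1 := h.YZ
  have hYX : Bf (vec Y) (vec X) = -1 := by rw [Bf_comm]; exact hXY
  have hwX := h.wX
  have hwY := h.wY
  have hwZ := h.wZ
  have hXw : Bf (vec X) w = 0 := by rw [Bf_comm]; exact hwX
  have hYw : Bf (vec Y) w = 0 := by rw [Bf_comm]; exact hwY
  have hww := h.ww
  have hEY : vec E = vec Y + vec X + vec Z + (2 : ℝ) • w := by rw [hE]; abel
  refine ⟨List.mem_cons_of_mem _ h.mX, List.mem_cons_of_mem _ h.mY, List.mem_cons_self, h.XY,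
    h.tangent hE, h.swap12.tangent hEY, ?_, ?_, ?_, ?_⟩
  · simp only [Bf_add_left, Bf_add_right, hXX, hYY, hXY, hYX, hwX, hwY, hXw, hYw, hww]
    norm_num
  · simp only [Bf_add_left, hXX, hYX, hwX]
    norm_num
  · simp only [Bf_add_left, hYY, hXY, hwY]
    norm_num
  · rw [hE]
    simp only [Bf_add_left, Bf_add_right, Bf_smul_right, hXX, hYY, hXY, hYX, hXZ, hYZ, hwX,
      hwY, hwZ, hXw, hYw, hww]
    norm_num

theorem Tri.child_live {P : List Circ} {X Y Z E : Circ} {w : Vec} (h : Tri P X Y Z w)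
    (hE : vec E = vec X + vec Y + vec Z + (2 : ℝ) • w)
    (hpos : 0 < vec X 0 + vec Y 0 + w 0)
    (hout : ∀ S ∈ P, S ≠ X → S ≠ Y → S ≠ Z → Bf (vec X + vec Y + w) (vec S) ≤ -1) :
    Live (E :: P) X Y E (vec X + vec Y + w) := by
  refine ⟨h.child hE, by simpa using hpos, fun S hS h1 h2 h3 => ?_⟩
  rcases List.mem_cons.1 hS with hS | hS
  · exact absurd hS h3
  · by_cases h4 : S = Z
    · subst h4
      have hXZ : Bf (vec X) (vec S) = -1 := h.XZ
      have hYZ : Bf (vec Y) (vec S) = -1 := h.YZ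
      simp only [Bf_add_left, hXZ, hYZ, h.wZ]
      norm_num
    · exact hout S hS h1 h2 h4

/-- Two faces which cannot be destroyed by one circle. -/
def Ind (P : List Circ) (w w' : Vec) : Prop :=
  ∀ S, Legal P S → Bf w (vec S) + Bf w' (vec S) ≤ -2

theorem Ind.symm {P : List Circ} {w w' : Vec} (h : Ind P w w') : Ind P w' w := by
  intro S hS
  have := h S hS
  linarith

theorem Ind.mono {P Q : List Circ} {w w' : Vec} (h : Ind P w w') (hPQ : ∀ D ∈ P, D ∈ Q) :
    Ind Q w w' := fun S hS => h S (hS.mono hPQ)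

theorem Legal.B_le {P : List Circ} {S X : Circ} (hS : Legal P S) (hX : X ∈ P) :
    Bf (vec X) (vec S) ≤ -1 := by
  rw [Bf_comm]
  exact (legal_iff P S).1 hS X hX

theorem ind_child {P : List Circ} {X Y Z E : Circ} {w : Vec} (hX : X ∈ P)
    (hE : vec E = vec X + vec Y + vec Z + (2 : ℝ) • w) :
    Ind (E :: P) (vec X + vec Y + w) (vec X + vec Z + w) := by
  intro S hS
  have h1 := hS.B_le (X := E) List.mem_cons_self
  have h2 := hS.B_le (X := X) (List.mem_cons_of_mem _ hX)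
  rw [hE] at h1
  simp only [Bf_add_left, Bf_smul_left] at h1 ⊢
  linarith

theorem ind_old {P : List Circ} {X Y E : Circ} {w w' : Vec} (hX : X ∈ P) (hY : Y ∈ P)
    (h : Ind P w w') : Ind (E :: P) (vec X + vec Y + w) w' := by
  intro S hS
  have h1 := h S (hS.mono fun D hD => List.mem_cons_of_mem _ hD)
  have h2 := hS.B_le (X := X) (List.mem_cons_of_mem _ hX)
  have h3 := hS.B_le (X := Y) (List.mem_cons_of_mem _ hY)
  simp only [Bf_add_left]
  linarith

/-- A live face remains live if the new circle is outside of it. -/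
theorem Live.cons {P : List Circ} {X Y Z S : Circ} {w : Vec} (h : Live P X Y Z w)
    (hS : Bf w (vec S) ≤ -1) : Live (S :: P) X Y Z w := by
  refine ⟨⟨List.mem_cons_of_mem _ h.mX, List.mem_cons_of_mem _ h.mY,
    List.mem_cons_of_mem _ h.mZ, h.XY, h.XZ, h.YZ, h.ww, h.wX, h.wY, h.wZ⟩, h.pos,
    fun T hT h1 h2 h3 => ?_⟩
  rcases List.mem_cons.1 hT with rfl | hT
  · exact hS
  · exact h.out T hT h1 h2 h3

/-- In a live face the inscribed circle can be placed. -/
theorem Live.stack {P : List Circ} {X Y Z : Circ} {w : Vec} (hP : Valid P)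
    (h : Live P X Y Z w) : ∃ E, vec E = vec X + vec Y + vec Z + (2 : ℝ) • w ∧ Legal P E := by
  have hX := vec_pos X
  have hY := vec_pos Y
  have hZ := vec_pos Z
  have hw := h.pos
  refine h.toTri.stack (by linarith) fun S hS h1 h2 h3 => ?_
  have e1 : Bf (vec X) (vec S) ≤ -1 := hP.le h.mX hS (Ne.symm h1)
  have e2 : Bf (vec Y) (vec S) ≤ -1 := hP.le h.mY hS (Ne.symm h2)
  have e3 : Bf (vec Z) (vec S) ≤ -1 := hP.le h.mZ hS (Ne.symm h3)
  have e4 := h.out S hS h1 h2 h3
  simp only [Bf_add_left, Bf_smul_left]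
  linarith

theorem Live.child {P : List Circ} {X Y Z E : Circ} {w : Vec} (hP : Valid P)
    (h : Live P X Y Z w) (hE : vec E = vec X + vec Y + vec Z + (2 : ℝ) • w) :
    Live (E :: P) X Y E (vec X + vec Y + w) := by
  have hX := vec_pos X
  have hY := vec_pos Y
  have hw := h.pos
  refine h.toTri.child_live hE (by linarith) fun S hS h1 h2 h3 => ?_
  have e1 : Bf (vec X) (vec S) ≤ -1 := hP.le h.mX hS (Ne.symm h1)
  have e2 : Bf (vec Y) (vec S) ≤ -1 := hP.le h.mY hS (Ne.symm h2)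
  have e4 := h.out S hS h1 h2 h3
  simp only [Bf_add_left]
  linarith

/-- An old live face stays live when the inscribed circle of another face is placed. -/
theorem Live.stay {P : List Circ} {X Y Z X' Y' Z' E : Circ} {w w' : Vec}
    (h : Live P X Y Z w) (h' : Live P X' Y' Z' w') (hi : Ind P w w')
    (hE : vec E = vec X + vec Y + vec Z + (2 : ℝ) • w) (hl : Legal P E) :
    Live (E :: P) X' Y' Z' w' := by
  refine h'.cons ?_
  have h1 := hi E hl
  have h2 : Bf w (vec E) = 2 := by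
    rw [hE]
    simp only [Bf_add_right, Bf_smul_right, h.wX, h.wY, h.wZ, h.ww]
    norm_num
  linarith

/-- One circle does not destroy both of two independent faces. -/
theorem Ind.alive {P : List Circ} {w w' : Vec} (h : Ind P w w') {S : Circ} (hS : Legal P S) :
    Bf w (vec S) ≤ -1 ∨ Bf w' (vec S) ≤ -1 := by
  have := h S hS
  by_contra hcon
  push Not at hcon
  linarith [hcon.1, hcon.2]

end Pool.Agent.H87.CPG
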