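import Pool.Agent.H87.CPG.Lor

/-!
Forcing in finitely many rounds, and the extraction of a strategy.
-/

set_option autoImplicit false

namespace Pool.Agent.H87.CPG

/-- Builder can reach a packing with property `T` within `n` rounds. -/
def ForceN (T : List Circ → Prop) : ℕ → List Circ → Prop
  | 0, P => T P
  | n + 1, P => T P ∨ ∃ C, Legal P C ∧ ∀ S, Legal (C :: P) S → ForceN T n (S :: C :: P)

/-- the circles have disjoint interiors -/
def Valid (P : List Circ) : Prop := P.Pairwise fun C D => Disjoint C.interior D.interior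

theorem Valid.cons {P : List Circ} {C : Circ} (hP : Valid P) (hC : Legal P C) :
    Valid (C :: P) := List.pairwise_cons.2 ⟨hC, hP⟩

theorem Valid.le {P : List Circ} (hP : Valid P) {C D : Circ} (hC : C ∈ P) (hD : D ∈ P)
    (h : C ≠ D) : B C D ≤ -1 := by
  have h2 : ∀ x ∈ P, ∀ y ∈ P, x ≠ y → Disjoint x.interior y.interior := by
    have hsymm : Std.Symm fun C D : Circ => Disjoint C.interior D.interior :=
      ⟨fun _ _ h => h.symm⟩
    exact fun x hx y hy hxy => List.Pairwise.forall hP hx hy hxy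
  exact (disjoint_iff C D).1 (h2 C hC D hD h)

theorem ForceN.of {T : List Circ → Prop} {P : List Circ} (h : T P) (n : ℕ) : ForceN T n P := by
  cases n with
  | zero => exact h
  | succ n => exact Or.inl h

theorem ForceN.mono_n {T : List Circ → Prop} : ∀ {n m : ℕ} {P : List Circ}, n ≤ m →
    ForceN T n P → ForceN T m P
  | 0, m, P, _, h => ForceN.of h m
  | n + 1, 0, P, hnm, _ => absurd hnm (by omega)
  | n + 1, m + 1, P, hnm, h => by
    rcases h with h | ⟨C, hC, h⟩
    · exact Or.inl h
    · exact Or.inr ⟨C, hC, fun S hS => ForceN.mono_n (by omega) (h S hS)⟩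

/-- Composition of forcing, with the bookkeeping of valid extensions. -/
theorem ForceN.bind {T T' : List Circ → Prop} {m : ℕ} (P₀ : List Circ) :
    ∀ {n : ℕ} {P : List Circ}, Valid P → P₀ <:+ P →
      (∀ Q, Valid Q → P₀ <:+ Q → T Q → ForceN T' m Q) → ForceN T n P → ForceN T' (n + m) P
  | 0, P, hP, hs, hT, h => by
    rw [Nat.zero_add]
    exact hT P hP hs h
  | n + 1, P, hP, hs, hT, h => by
    rcases h with h | ⟨C, hC, h⟩
    · exact ForceN.mono_n (by omega) (hT P hP hs h)
    · have e : n + 1 + m = (n + m) + 1 := by omega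
      rw [e]
      refine Or.inr ⟨C, hC, fun S hS => ?_⟩
      refine ForceN.bind P₀ ((hP.cons hC).cons hS) ?_ hT (h S hS)
      exact hs.trans ((List.suffix_cons C P).trans (List.suffix_cons S (C :: P)))

theorem ForceN.imp {T T' : List Circ → Prop} {n : ℕ} {P : List Circ} (hP : Valid P)
    (hT : ∀ Q, Valid Q → P <:+ Q → T Q → T' Q) (h : ForceN T n P) : ForceN T' n P :=
  ForceN.bind (m := 0) P hP (List.suffix_refl P) (fun Q hQ hs hTQ => hT Q hQ hs hTQ) h

/-- One round. -/
theorem ForceN.step {T : List Circ → Prop} {n : ℕ} {P : List Circ} (C : Circ) (hC : Legal P C)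
    (h : ∀ S, Legal (C :: P) S → ForceN T n (S :: C :: P)) : ForceN T (n + 1) P :=
  Or.inr ⟨C, hC, h⟩

/-- there is always a legal move -/
theorem exists_far (P : List Circ) : ∃ M : ℝ, 0 ≤ M ∧ ∀ D ∈ P, ‖D.c‖ + D.r + 3 ≤ M := by
  induction P with
  | nil => exact ⟨0, le_refl _, fun D hD => absurd hD (by simp)⟩
  | cons C P ih =>
    obtain ⟨M, hM0, hM⟩ := ih
    refine ⟨max M (‖C.c‖ + C.r + 3), le_max_of_le_left hM0, fun D hD => ?_⟩
    rcases List.mem_cons.1 hD with rfl | hD
    · exact le_max_right _ _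
    · exact (hM D hD).trans (le_max_left _ _)

theorem exists_legal (P : List Circ) : ∃ C : Circ, Legal P C := by
  obtain ⟨M, hM0, hM⟩ := exists_far P
  refine ⟨⟨(M : ℂ), 1, one_pos⟩, fun D hD => ?_⟩
  have h := hM D hD
  refine Metric.ball_disjoint_ball ?_
  show 1 + D.r ≤ dist (M : ℂ) D.c
  have h2 : ‖(M : ℂ)‖ ≤ dist (M : ℂ) D.c + ‖D.c‖ := by
    rw [dist_eq_norm]
    calc ‖(M : ℂ)‖ = ‖((M : ℂ) - D.c) + D.c‖ := by rw [sub_add_cancel]
      _ ≤ _ := norm_add_le _ _
  rw [Complex.norm_real, Real.norm_eq_abs, abs_of_nonneg hM0] at h2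
  linarith

theorem play_length (σ : List Circ → Circ) (s : ℕ → Circ) (P₀ : List Circ) (i : ℕ) :
    (play σ s P₀ i).length = P₀.length + 2 * i := by
  induction i with
  | zero => rfl
  | succ i ih =>
    show (play σ s P₀ i).length + 1 + 1 = _
    rw [ih]
    ring

/-- Forcing gives a strategy. -/
theorem exists_strategy (T : List Circ → Prop) (N : ℕ) (P₀ : List Circ) (h : ForceN T N P₀) :
    ∃ σ : List Circ → Circ, ∀ s : ℕ → Circ,
      (∀ i, Legal (σ (play σ s P₀ i) :: play σ s P₀ i) (s i)) →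
        (∀ i, Legal (play σ s P₀ i) (σ (play σ s P₀ i))) ∧ ∃ i, T (play σ s P₀ i) := by
  classical
  obtain ⟨σ, hσ⟩ : ∃ σ : List Circ → Circ, ∀ Q,
      Legal Q (σ Q) ∧ ∀ k, Q.length = P₀.length + 2 * k →
        (∃ C, Legal Q C ∧ ∀ S, Legal (C :: Q) S → ForceN T (N - k - 1) (S :: C :: Q)) →
          ∀ S, Legal (σ Q :: Q) S → ForceN T (N - k - 1) (S :: σ Q :: Q) := by
    refine ⟨fun Q => if hQ : ∃ C, Legal Q C ∧ ∀ S, Legal (C :: Q) S →
      ForceN T (N - (Q.length - P₀.length) / 2 - 1) (S :: C :: Q) then hQ.choose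
      else (exists_legal Q).choose, fun Q => ⟨?_, fun k hk hQ => ?_⟩⟩
    · by_cases hQ : ∃ C, Legal Q C ∧ ∀ S, Legal (C :: Q) S →
        ForceN T (N - (Q.length - P₀.length) / 2 - 1) (S :: C :: Q)
      · simp only [dif_pos hQ]
        exact hQ.choose_spec.1
      · simp only [dif_neg hQ]
        exact (exists_legal Q).choose_spec
    · have e : (Q.length - P₀.length) / 2 = k := by omega
      have hQ' : ∃ C, Legal Q C ∧ ∀ S, Legal (C :: Q) S →
        ForceN T (N - (Q.length - P₀.length) / 2 - 1) (S :: C :: Q) := by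
        rw [e]
        exact hQ
      simp only [dif_pos hQ']
      have h3 := hQ'.choose_spec.2
      intro S hS
      exact (congrArg (fun t => ForceN T (N - t - 1) (S :: hQ'.choose :: Q)) e).mp (h3 S hS)
  refine ⟨σ, fun s hs => ⟨fun i => (hσ _).1, ?_⟩⟩
  by_contra hno
  push Not at hno
  have key : ∀ i, i ≤ N → ForceN T (N - i) (play σ s P₀ i) := by
    intro i
    induction i with
    | zero => intro _; exact h
    | succ i ih =>
      intro hi
      have h1 := ih (by omega)
      obtain ⟨m, hm⟩ : ∃ m, N - i = m + 1 := ⟨N - i - 1, by omega⟩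
      rw [hm] at h1
      rcases h1 with h1 | h1
      · exact absurd h1 (hno i)
      · have e : m = N - i - 1 := by omega
        rw [e] at h1
        have h2 := (hσ (play σ s P₀ i)).2 i (play_length σ s P₀ i) h1 (s i) (hs i)
        have e2 : N - (i + 1) = N - i - 1 := by omega
        rw [e2]
        exact h2
  have h5 := key N le_rfl
  rw [Nat.sub_self] at h5
  exact hno N h5

end Pool.Agent.H87.CPG
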