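import Pool.Agent.H87.CPG.Face

/-!
The strip of a tangent pair of circles.
-/

set_option autoImplicit false

namespace Pool.Agent.H87.CPG

/-- A frame of the tangent pair `A C`. -/
structure Frame (A C : Circ) (v w : Vec) : Prop where
  AC : B A C = -1
  vv : Bf v v = 1
  vA : Bf v (vec A) = -1
  vC : Bf v (vec C) = -1
  ww : Bf w w = 1
  wA : Bf w (vec A) = 0
  wC : Bf w (vec C) = 0
  wv : Bf w v = 0

theorem exists_frame (A C : Circ) (h : B A C = -1) : ∃ v w, Frame A C v w := by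
  have hA := A.pos
  have hC := C.pos
  have hs : A.r + C.r ≠ 0 := by positivity
  obtain ⟨s, hsd⟩ : ∃ s, s = A.r + C.r := ⟨_, rfl⟩
  obtain ⟨α, hα⟩ : ∃ α, α = (C.c.re - A.c.re) / (A.r + C.r) := ⟨_, rfl⟩
  obtain ⟨β, hβ⟩ : ∃ β, β = (C.c.im - A.c.im) / (A.r + C.r) := ⟨_, rfl⟩
  have h1 : (C.c.re - A.c.re) = α * (A.r + C.r) := by rw [hα]; field_simp
  have h2 : (C.c.im - A.c.im) = β * (A.r + C.r) := by rw [hβ]; field_simp
  have h3 : α ^ 2 + β ^ 2 = 1 := by
    rw [B_eq, dist_sq, div_eq_iff (by positivity)] at h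
    have h4 : (C.c.re - A.c.re) ^ 2 + (C.c.im - A.c.im) ^ 2 = (A.r + C.r) ^ 2 := by
      linear_combination -h
    rw [h1, h2] at h4
    have h5 : (α ^ 2 + β ^ 2 - 1) * (A.r + C.r) ^ 2 = 0 := by linear_combination h4
    rcases mul_eq_zero.1 h5 with h6 | h6
    · linarith
    · exact absurd h6 (pow_ne_zero 2 hs)
  have hCre : C.c.re = A.c.re + α * (A.r + C.r) := by linarith
  have hCim : C.c.im = A.c.im + β * (A.r + C.r) := by linarith
  refine ⟨vec' (A.c.re + C.r * α) (A.c.im + C.r * β) (-(A.r + C.r)),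
    ![0, 2 * (-β * A.c.re + α * A.c.im), -β, α], h, ?_, ?_, ?_, ?_, ?_, ?_, ?_⟩
  · rw [Bf_vec' _ _ _ _ _ _ (neg_ne_zero.2 hs) (neg_ne_zero.2 hs)]
    field_simp
    ring
  · rw [vec, Bf_vec' _ _ _ _ _ _ (neg_ne_zero.2 hs) hA.ne']
    rw [div_eq_iff (mul_ne_zero (mul_ne_zero two_ne_zero (neg_ne_zero.2 hs)) hA.ne')]
    linear_combination (-(C.r ^ 2)) * h3
  · rw [vec, Bf_vec' _ _ _ _ _ _ (neg_ne_zero.2 hs) hC.ne', hCre, hCim]
    rw [div_eq_iff (mul_ne_zero (mul_ne_zero two_ne_zero (neg_ne_zero.2 hs)) hC.ne')]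
    linear_combination (-(A.r ^ 2)) * h3
  · simp only [Bf, Matrix.cons_val_zero, Matrix.cons_val_one, Matrix.cons_val]
    linear_combination h3
  · simp only [Bf, vec, vec', Matrix.cons_val_zero, Matrix.cons_val_one, Matrix.cons_val]
    field_simp
    ring
  · simp only [Bf, vec, vec', Matrix.cons_val_zero, Matrix.cons_val_one, Matrix.cons_val, hCre,
      hCim]
    field_simp
    ring
  · simp only [Bf, vec', Matrix.cons_val_zero, Matrix.cons_val_one, Matrix.cons_val]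
    field_simp
    ring

/-- the circles tangent to `A` and `C` -/
noncomputable def vt (A C : Circ) (v w : Vec) (τ : ℝ) : Vec :=
  v + (2 * τ) • w + (τ ^ 2) • (vec A + vec C)

/-- the lines orthogonal to the strip -/
noncomputable def wt (A C : Circ) (w : Vec) (τ : ℝ) : Vec := w + τ • (vec A + vec C)

theorem Bf_wt (A C : Circ) (w x : Vec) (σ : ℝ) :
    Bf x (wt A C w σ) = Bf x w + σ * (Bf x (vec A) + Bf x (vec C)) := by
  simp only [wt, Bf_add_right, Bf_smul_right]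

section
variable {A C : Circ} {v w : Vec} (F : Frame A C v w)
include F

theorem vt_A (τ : ℝ) : Bf (vt A C v w τ) (vec A) = -1 := by
  have h1 : Bf (vec A) (vec A) = 1 := vec_self A
  have h2 : Bf (vec C) (vec A) = -1 := by rw [Bf_comm]; exact F.AC
  simp only [vt, Bf_add_left, Bf_smul_left, F.vA, F.wA, h1, h2]
  ring

theorem vt_C (τ : ℝ) : Bf (vt A C v w τ) (vec C) = -1 := by
  have h1 : Bf (vec C) (vec C) = 1 := vec_self C
  have h2 : Bf (vec A) (vec C) = -1 := F.AC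
  simp only [vt, Bf_add_left, Bf_smul_left, F.vC, F.wC, h1, h2]
  ring

theorem wt_A (τ : ℝ) : Bf (wt A C w τ) (vec A) = 0 := by
  have h1 : Bf (vec A) (vec A) = 1 := vec_self A
  have h2 : Bf (vec C) (vec A) = -1 := by rw [Bf_comm]; exact F.AC
  simp only [wt, Bf_add_left, Bf_smul_left, F.wA, h1, h2]
  ring

theorem wt_C (τ : ℝ) : Bf (wt A C w τ) (vec C) = 0 := by
  have h1 : Bf (vec C) (vec C) = 1 := vec_self C
  have h2 : Bf (vec A) (vec C) = -1 := F.AC
  simp only [wt, Bf_add_left, Bf_smul_left, F.wC, h1, h2]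
  ring

theorem vt_vt (σ τ : ℝ) : Bf (vt A C v w σ) (vt A C v w τ) = 1 - 2 * (σ - τ) ^ 2 := by
  have h3 := vt_A F σ
  have h4 := vt_C F σ
  have h5 : Bf (vt A C v w σ) v = 1 - 2 * σ ^ 2 := by
    have h1 : Bf (vec A) v = -1 := by rw [Bf_comm]; exact F.vA
    have h2 : Bf (vec C) v = -1 := by rw [Bf_comm]; exact F.vC
    simp only [vt, Bf_add_left, Bf_smul_left, F.vv, F.wv, h1, h2]
    ring
  have h6 : Bf (vt A C v w σ) w = 2 * σ := by
    have h0 : Bf v w = 0 := by rw [Bf_comm]; exact F.wv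
    have h1 : Bf (vec A) w = 0 := by rw [Bf_comm]; exact F.wA
    have h2 : Bf (vec C) w = 0 := by rw [Bf_comm]; exact F.wC
    simp only [vt, Bf_add_left, Bf_smul_left, F.ww, h0, h1, h2]
    ring
  have h7 : Bf (vt A C v w σ) (vt A C v w τ) = Bf (vt A C v w σ) v +
      2 * τ * Bf (vt A C v w σ) w + τ ^ 2 * (Bf (vt A C v w σ) (vec A) +
        Bf (vt A C v w σ) (vec C)) := by
    conv_lhs => rw [vt.eq_def A C v w τ]
    simp only [Bf_add_right, Bf_smul_right]
  rw [h7, h3, h4, h5, h6]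
  ring

theorem wt_vt (σ τ : ℝ) : Bf (wt A C w σ) (vt A C v w τ) = 2 * (τ - σ) := by
  have h3 := vt_A F τ
  have h4 := vt_C F τ
  have h6 : Bf w (vt A C v w τ) = 2 * τ := by
    simp only [vt, Bf_add_right, Bf_smul_right, F.ww, F.wv, F.wA, F.wC]
    ring
  have h7 : Bf (wt A C w σ) (vt A C v w τ) = Bf w (vt A C v w τ) +
      σ * (Bf (vt A C v w τ) (vec A) + Bf (vt A C v w τ) (vec C)) := by
    conv_lhs => rw [wt]
    simp only [Bf_add_left, Bf_smul_left]
    rw [Bf_comm (vec A), Bf_comm (vec C)]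
  rw [h7, h3, h4, h6]
  ring

theorem wt_wt (σ : ℝ) : Bf (wt A C w σ) (wt A C w σ) = 1 := by
  have h1 := wt_A F σ
  have h2 := wt_C F σ
  have h3 : Bf (wt A C w σ) w = 1 := by
    have h1 : Bf (vec A) w = 0 := by rw [Bf_comm]; exact F.wA
    have h2 : Bf (vec C) w = 0 := by rw [Bf_comm]; exact F.wC
    simp only [wt, Bf_add_left, Bf_smul_left, F.ww, h1, h2]
    ring
  rw [Bf_wt, h1, h2, h3]
  ring

end

theorem vt_step (A C : Circ) (v w : Vec) (τ : ℝ) : vt A C v w (τ + 1) =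
    vec A + vec C + vt A C v w τ + (2 : ℝ) • wt A C w τ := by
  funext i
  simp only [vt, wt, Pi.add_apply, Pi.smul_apply, smul_eq_mul]
  ring

theorem vt_back (A C : Circ) (v w : Vec) (τ : ℝ) : vt A C v w (τ - 1) =
    vec A + vec C + vt A C v w τ + (2 : ℝ) • (-wt A C w τ) := by
  funext i
  simp only [vt, wt, Pi.add_apply, Pi.smul_apply, Pi.neg_apply, smul_eq_mul]
  ring

theorem wt_back (A C : Circ) (w : Vec) (τ : ℝ) : wt A C w (τ - 1) =
    wt A C w τ - (vec A + vec C) := by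
  funext i
  simp only [wt, Pi.add_apply, Pi.sub_apply, Pi.smul_apply, smul_eq_mul]
  ring

/-- The position `σ` of the strip is far away from the circles of `P`. -/
structure Far (P : List Circ) (A C : Circ) (v w : Vec) (σ : ℝ) : Prop where
  bv : 0 < vt A C v w σ 0
  bw : 0 < wt A C w σ 0
  bA : 0 < vec A 0 + vt A C v w σ 0 - wt A C w σ 0
  bC : 0 < vec C 0 + vt A C v w σ 0 - wt A C w σ 0
  S1 : ∀ S ∈ P, S ≠ A → S ≠ C → Bf (vt A C v w σ) (vec S) ≤ -1
  S2 : ∀ S ∈ P, S ≠ A → S ≠ C → Bf (wt A C w σ) (vec S) ≤ -1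
  S3 : ∀ S ∈ P, S ≠ A → S ≠ C → Bf (vec A + vt A C v w σ - wt A C w σ) (vec S) ≤ -1
  S4 : ∀ S ∈ P, S ≠ A → S ≠ C → Bf (vec C + vt A C v w σ - wt A C w σ) (vec S) ≤ -1

theorem quad_neg (a b c : ℝ) (hc : c < 0) :
    ∀ᶠ σ : ℝ in Filter.atTop, a + b * σ + c * σ ^ 2 ≤ -1 := by
  filter_upwards [Filter.eventually_ge_atTop (1 : ℝ),
    Filter.eventually_ge_atTop ((|a| + |b| + 1) / (-c))] with σ h1 h2
  rw [div_le_iff₀ (by linarith)] at h2
  have h3 : (|a| + |b| + 1) * σ ≤ σ * (-c) * σ := by nlinarith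
  have h4 := le_abs_self a
  have h5 := le_abs_self b
  have h6 := abs_nonneg a
  have h7 : b * σ ≤ |b| * σ := by nlinarith
  have h8 : |a| ≤ |a| * σ := by nlinarith
  nlinarith

theorem quad_pos (a b c : ℝ) (hc : 0 < c) :
    ∀ᶠ σ : ℝ in Filter.atTop, 0 < a + b * σ + c * σ ^ 2 := by
  filter_upwards [quad_neg (-a) (-b) (-c) (by linarith)] with σ h
  nlinarith

theorem lin_neg (a c : ℝ) (hc : c < 0) :
    ∀ᶠ σ : ℝ in Filter.atTop, a + c * σ ≤ -1 := by
  filter_upwards [Filter.eventually_ge_atTop ((a + 1) / (-c))] with σ h2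
  rw [div_le_iff₀ (by linarith)] at h2
  nlinarith

theorem lin_pos (a c : ℝ) (hc : 0 < c) :
    ∀ᶠ σ : ℝ in Filter.atTop, 0 < a + c * σ := by
  filter_upwards [lin_neg (-a) (-c) (by linarith)] with σ h
  nlinarith

theorem exists_far_frame {P : List Circ} (hP : Valid P) {A C : Circ} (hA : A ∈ P) (hC : C ∈ P)
    (v w : Vec) : ∃ T : ℝ, ∀ σ, T ≤ σ → Far P A C v w σ := by
  have hn : 0 < vec A 0 + vec C 0 := by
    have h1 := vec_pos A
    have h2 := vec_pos C
    linarith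
  have e1 : ∀ᶠ σ : ℝ in Filter.atTop, 0 < vt A C v w σ 0 := by
    filter_upwards [quad_pos (v 0) (2 * w 0) (vec A 0 + vec C 0) hn] with σ h
    simp only [vt, Pi.add_apply, Pi.smul_apply, smul_eq_mul]
    nlinarith
  have e2 : ∀ᶠ σ : ℝ in Filter.atTop, 0 < wt A C w σ 0 := by
    filter_upwards [lin_pos (w 0) (vec A 0 + vec C 0) hn] with σ h
    simp only [wt, Pi.add_apply, Pi.smul_apply, smul_eq_mul]
    nlinarith
  have e3 : ∀ (D : Circ), ∀ᶠ σ : ℝ in Filter.atTop,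
      0 < vec D 0 + vt A C v w σ 0 - wt A C w σ 0 := by
    intro D
    filter_upwards [quad_pos (vec D 0 + v 0 - w 0) (2 * w 0 - (vec A 0 + vec C 0))
      (vec A 0 + vec C 0) hn] with σ h
    simp only [vt, wt, Pi.add_apply, Pi.smul_apply, smul_eq_mul]
    nlinarith
  have hneg : ∀ S ∈ P, S ≠ A → S ≠ C → Bf (vec A + vec C) (vec S) < 0 := by
    intro S hS h1 h2
    have h3 : Bf (vec A) (vec S) ≤ -1 := hP.le hA hS (Ne.symm h1)
    have h4 : Bf (vec C) (vec S) ≤ -1 := hP.le hC hS (Ne.symm h2)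
    rw [Bf_add_left]
    linarith
  have f1 : ∀ᶠ σ : ℝ in Filter.atTop, ∀ S ∈ {S | S ∈ P}, S ≠ A → S ≠ C →
      Bf (vt A C v w σ) (vec S) ≤ -1 := by
    rw [Filter.eventually_all_finite (List.finite_toSet P)]
    intro S hS
    by_cases h1 : S = A
    · exact Filter.Eventually.of_forall fun σ h => absurd h1 h
    by_cases h2 : S = C
    · exact Filter.Eventually.of_forall fun σ _ h => absurd h2 h
    filter_upwards [quad_neg (Bf v (vec S)) (2 * Bf w (vec S)) (Bf (vec A + vec C) (vec S))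
      (hneg S hS h1 h2)] with σ h _ _
    simp only [vt, Bf_add_left, Bf_smul_left] at h ⊢
    nlinarith
  have f2 : ∀ᶠ σ : ℝ in Filter.atTop, ∀ S ∈ {S | S ∈ P}, S ≠ A → S ≠ C →
      Bf (wt A C w σ) (vec S) ≤ -1 := by
    rw [Filter.eventually_all_finite (List.finite_toSet P)]
    intro S hS
    by_cases h1 : S = A
    · exact Filter.Eventually.of_forall fun σ h => absurd h1 h
    by_cases h2 : S = C
    · exact Filter.Eventually.of_forall fun σ _ h => absurd h2 h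
    filter_upwards [lin_neg (Bf w (vec S)) (Bf (vec A + vec C) (vec S))
      (hneg S hS h1 h2)] with σ h _ _
    simp only [wt, Bf_add_left, Bf_smul_left] at h ⊢
    nlinarith
  have f3 : ∀ D : Circ, ∀ᶠ σ : ℝ in Filter.atTop, ∀ S ∈ {S | S ∈ P}, S ≠ A → S ≠ C →
      Bf (vec D + vt A C v w σ - wt A C w σ) (vec S) ≤ -1 := by
    intro D
    rw [Filter.eventually_all_finite (List.finite_toSet P)]
    intro S hS
    by_cases h1 : S = A
    · exact Filter.Eventually.of_forall fun σ h => absurd h1 h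
    by_cases h2 : S = C
    · exact Filter.Eventually.of_forall fun σ _ h => absurd h2 h
    filter_upwards [quad_neg (Bf (vec D) (vec S) + Bf v (vec S) - Bf w (vec S))
      (2 * Bf w (vec S) - Bf (vec A + vec C) (vec S)) (Bf (vec A + vec C) (vec S))
      (hneg S hS h1 h2)] with σ h _ _
    simp only [vt, wt, Bf_add_left, Bf_sub_left, Bf_smul_left] at h ⊢
    nlinarith
  obtain ⟨T, hT⟩ := Filter.eventually_atTop.1
    ((((e1.and e2).and ((e3 A).and (e3 C))).and (f1.and f2)).and ((f3 A).and (f3 C)))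
  refine ⟨T, fun σ hσ => ?_⟩
  obtain ⟨⟨⟨⟨h1, h2⟩, h3, h4⟩, h5, h6⟩, h7, h8⟩ := hT σ hσ
  exact ⟨h1, h2, h3, h4, h5, h6, h7, h8⟩

end Pool.Agent.H87.CPG
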