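import Pool.Agent.H87.CPG.Defs

/-!
Circles as vectors of a four dimensional Lorentz space.
-/

set_option autoImplicit false

namespace Pool.Agent.H87.CPG

/-- vectors of the Lorentz space -/
abbrev Vec := Fin 4 → ℝ

/-- the Lorentz form -/
noncomputable def Bf (v w : Vec) : ℝ := v 2 * w 2 + v 3 * w 3 - (v 0 * w 1 + v 1 * w 0) / 2

theorem Bf_comm (v w : Vec) : Bf v w = Bf w v := by
  unfold Bf; ring

theorem Bf_add_left (u v w : Vec) : Bf (u + v) w = Bf u w + Bf v w := by
  simp only [Bf, Pi.add_apply]; ring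

theorem Bf_add_right (u v w : Vec) : Bf u (v + w) = Bf u v + Bf u w := by
  simp only [Bf, Pi.add_apply]; ring

theorem Bf_sub_left (u v w : Vec) : Bf (u - v) w = Bf u w - Bf v w := by
  simp only [Bf, Pi.sub_apply]; ring

theorem Bf_sub_right (u v w : Vec) : Bf u (v - w) = Bf u v - Bf u w := by
  simp only [Bf, Pi.sub_apply]; ring

theorem Bf_smul_left (a : ℝ) (v w : Vec) : Bf (a • v) w = a * Bf v w := by
  simp only [Bf, Pi.smul_apply, smul_eq_mul]; ring

theorem Bf_smul_right (a : ℝ) (v w : Vec) : Bf v (a • w) = a * Bf v w := by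
  simp only [Bf, Pi.smul_apply, smul_eq_mul]; ring

theorem Bf_neg_left (v w : Vec) : Bf (-v) w = - Bf v w := by
  simp only [Bf, Pi.neg_apply]; ring

theorem Bf_neg_right (v w : Vec) : Bf v (-w) = - Bf v w := by
  simp only [Bf, Pi.neg_apply]; ring

/-- the vector of the circle with centre `(x, y)` and (signed) radius `r` -/
noncomputable def vec' (x y r : ℝ) : Vec := ![1 / r, (x ^ 2 + y ^ 2 - r ^ 2) / r, x / r, y / r]

theorem Bf_vec' (x y r x' y' r' : ℝ) (hr : r ≠ 0) (hr' : r' ≠ 0) :
    Bf (vec' x y r) (vec' x' y' r') =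
      (r ^ 2 + r' ^ 2 - (x - x') ^ 2 - (y - y') ^ 2) / (2 * r * r') := by
  simp only [Bf, vec', Matrix.cons_val_zero, Matrix.cons_val_one, Matrix.cons_val]
  field_simp
  ring

/-- the vector of a circle -/
noncomputable def vec (C : Circ) : Vec := vec' C.c.re C.c.im C.r

/-- the product of two circles -/
noncomputable def B (C D : Circ) : ℝ := Bf (vec C) (vec D)

theorem B_comm (C D : Circ) : B C D = B D C := Bf_comm _ _

theorem vec_self (C : Circ) : Bf (vec C) (vec C) = 1 := by
  rw [vec, Bf_vec' _ _ _ _ _ _ C.pos.ne' C.pos.ne']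
  have := C.pos.ne'
  field_simp
  ring

theorem B_self (C : Circ) : B C C = 1 := vec_self C

theorem vec_pos (C : Circ) : 0 < vec C 0 := by
  have := C.pos
  simp only [vec, vec', Matrix.cons_val_zero]
  positivity

theorem dist_sq (C D : Circ) :
    dist C.c D.c ^ 2 = (C.c.re - D.c.re) ^ 2 + (C.c.im - D.c.im) ^ 2 := by
  rw [Complex.dist_eq, Complex.sq_norm, Complex.normSq_apply]
  simp only [Complex.sub_re, Complex.sub_im]
  ring

theorem B_eq (C D : Circ) :
    B C D = (C.r ^ 2 + D.r ^ 2 - dist C.c D.c ^ 2) / (2 * C.r * D.r) := by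
  rw [B, vec, vec, Bf_vec' _ _ _ _ _ _ C.pos.ne' D.pos.ne', dist_sq]
  congr 1
  ring

theorem disjoint_iff (C D : Circ) : Disjoint C.interior D.interior ↔ B C D ≤ -1 := by
  have hC := C.pos
  have hD := D.pos
  rw [Circ.interior, Circ.interior, disjoint_ball_ball_iff hC hD, B_eq,
    div_le_iff₀ (by positivity)]
  have hd : 0 ≤ dist C.c D.c := dist_nonneg
  constructor
  · intro h
    nlinarith
  · intro h
    have h2 : (C.r + D.r) ^ 2 ≤ dist C.c D.c ^ 2 := by nlinarith
    exact le_of_sq_le_sq h2 hd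

theorem tangent_of (C D : Circ) (h : B C D = -1) : Tangent C D := by
  have hC := C.pos
  have hD := D.pos
  have hd : 0 ≤ dist C.c D.c := dist_nonneg
  rw [B_eq, div_eq_iff (by positivity)] at h
  have h2 : dist C.c D.c ^ 2 = (C.r + D.r) ^ 2 := by linarith
  have h3 : dist C.c D.c = C.r + D.r := by
    rwa [pow_left_inj₀ hd (by positivity) two_ne_zero] at h2
  have h4 : C.r + D.r ≠ 0 := by positivity
  refine ⟨AffineMap.lineMap C.c D.c (C.r / (C.r + D.r)), ⟨?_, ?_⟩, ?_⟩
  · show dist _ _ = _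
    rw [dist_lineMap_left, h3, Real.norm_eq_abs, abs_of_pos (by positivity)]
    field_simp
  · show dist _ _ = _
    rw [dist_lineMap_right, h3, Real.norm_eq_abs]
    have h5 : 1 - C.r / (C.r + D.r) = D.r / (C.r + D.r) := by
      field_simp
      ring
    rw [h5, abs_of_pos (by positivity)]
    field_simp
  · rintro z ⟨hz1, hz2⟩
    have hz1' : dist C.c z = C.r := by
      rw [dist_comm]
      exact hz1
    have hz2' : dist z D.c = D.r := hz2
    refine eq_lineMap_of_dist_eq_mul_of_dist_eq_mul ?_ ?_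
    · rw [hz1', h3]
      field_simp
    · rw [hz2', h3]
      field_simp
      ring

theorem exists_circ (v : Vec) (hv : Bf v v = 1) (h0 : 0 < v 0) : ∃ C : Circ, vec C = v := by
  refine ⟨⟨⟨v 2 / v 0, v 3 / v 0⟩, 1 / v 0, by positivity⟩, ?_⟩
  have hv' : v 2 * v 2 + v 3 * v 3 - (v 0 * v 1 + v 1 * v 0) / 2 = 1 := hv
  funext i
  fin_cases i
  · simp [vec, vec']
  · simp only [vec, vec', Fin.mk_one, Matrix.cons_val_one, Matrix.cons_val_zero]
    field_simp
    nlinarith
  · simp [vec, vec', h0.ne']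
  · simp [vec, vec', h0.ne']

theorem legal_iff (P : List Circ) (C : Circ) : Legal P C ↔ ∀ D ∈ P, B C D ≤ -1 :=
  forall₂_congr fun D _ => disjoint_iff C D

theorem Legal.notMem {P : List Circ} {C : Circ} (h : Legal P C) : C ∉ P := by
  intro hC
  have := (legal_iff P C).1 h C hC
  rw [B_self] at this
  linarith

theorem Legal.mono {P Q : List Circ} {C : Circ} (h : Legal P C) (hQ : ∀ D ∈ Q, D ∈ P) :
    Legal Q C := fun D hD => h D (hQ D hD)

end Pool.Agent.H87.CPG
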