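import Pool.Agent.H87.CPG.Small

/-!
The induction over the class of graphs.
-/

set_option autoImplicit false

open scoped SimpleGraph

namespace Pool.Agent.H87.CPG

/-- In two rounds Builder gets a tangent pair. -/
theorem force_pair {T : List Circ → Prop} {n : ℕ} {P : List Circ} (hP : Valid P)
    (hT : ∀ Q A C, Valid Q → (∀ D ∈ P, D ∈ Q) → A ∈ Q → C ∈ Q → A ∉ P → C ∉ P →
      B A C = -1 → ForceN T n Q) :
    ForceN T (n + 2) P := by
  obtain ⟨M, hM0, hM⟩ := exists_far P
  have hdist : ∀ D ∈ P, D.r + 3 ≤ dist (M : ℂ) D.c := by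
    intro D hD
    have h := hM D hD
    have h2 : ‖(M : ℂ)‖ ≤ dist (M : ℂ) D.c + ‖D.c‖ := by
      rw [dist_eq_norm]
      calc ‖(M : ℂ)‖ = ‖((M : ℂ) - D.c) + D.c‖ := by rw [sub_add_cancel]
        _ ≤ _ := norm_add_le _ _
    rw [Complex.norm_real, Real.norm_eq_abs, abs_of_nonneg hM0] at h2
    linarith
  obtain ⟨A, hAc, hAr⟩ : ∃ A : Circ, A.c = (M : ℂ) ∧ A.r = 1 :=
    ⟨⟨(M : ℂ), 1, one_pos⟩, rfl, rfl⟩
  have hA : Legal P A := by
    intro D hD
    refine Metric.ball_disjoint_ball ?_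
    rw [hAc, hAr]
    linarith [hdist D hD]
  refine ForceN.step A hA fun S hS => ?_
  have hSA : S.r + A.r ≤ dist S.c A.c := by
    have h := hS A List.mem_cons_self
    rwa [Circ.interior, Circ.interior, disjoint_ball_ball_iff S.pos A.pos] at h
  have hSpos := S.pos
  obtain ⟨d, hd⟩ : ∃ d, d = dist S.c A.c := ⟨_, rfl⟩
  rw [← hd, hAr] at hSA
  have hd0 : 0 < d := by linarith
  have hdn : ‖S.c - A.c‖ = d := by rw [hd, dist_eq_norm]
  obtain ⟨C, hCc, hCr⟩ : ∃ C : Circ, C.c = A.c - ((2 / d : ℝ) : ℂ) * (S.c - A.c) ∧ C.r = 1 :=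
    ⟨⟨_, 1, one_pos⟩, rfl, rfl⟩
  have hAC2 : dist A.c C.c = 2 := by
    rw [hCc, dist_eq_norm]
    have e : A.c - (A.c - ((2 / d : ℝ) : ℂ) * (S.c - A.c)) =
      ((2 / d : ℝ) : ℂ) * (S.c - A.c) := by ring
    rw [e, norm_mul, Complex.norm_real, hdn, Real.norm_eq_abs, abs_of_pos (by positivity)]
    field_simp
  have hAC : B A C = -1 := by
    rw [B_eq, hAC2, hAr, hCr]
    norm_num
  have hV : Valid (S :: A :: P) := (hP.cons hA).cons hS
  have hC : Legal (S :: A :: P) C := by
    intro D hD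
    refine Metric.ball_disjoint_ball ?_
    rw [hCr]
    rcases List.mem_cons.1 hD with rfl | hD
    · have e : C.c - D.c = -((((d + 2) / d : ℝ) : ℂ) * (D.c - A.c)) := by
        rw [hCc]
        have hdC : (d : ℂ) ≠ 0 := by exact_mod_cast hd0.ne'
        push_cast
        field_simp
        ring
      rw [dist_eq_norm, e, norm_neg, norm_mul, Complex.norm_real, hdn, Real.norm_eq_abs,
        abs_of_pos (by positivity)]
      have e2 : (d + 2) / d * d = d + 2 := by field_simp
      rw [e2]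
      linarith
    · rcases List.mem_cons.1 hD with rfl | hD
      · rw [dist_comm, hAC2, hAr]
        norm_num
      · have h1 := hdist D hD
        rw [← hAc] at h1
        have h2 : dist A.c D.c ≤ dist A.c C.c + dist C.c D.c := dist_triangle _ _ _
        rw [hAC2] at h2
        linarith
  refine ForceN.step C hC fun S' hS' => ?_
  refine hT _ A C ((hV.cons hC).cons hS') (fun D hD => ?_) ?_ ?_ hA.notMem
    (fun h => hC.notMem (List.mem_cons_of_mem _ (List.mem_cons_of_mem _ h))) hAC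
  · simp [hD]
  · simp
  · simp

/-- the graphs which Builder can force everywhere -/
def Forced {V : Type} (H : SimpleGraph V) : Prop :=
  ∃ N, ∀ P, Valid P → ForceN (Cont H P) N P

theorem forced_of_chk {W : Type} [Fintype W] [DecidableEq W] {K : SimpleGraph W}
    [DecidableRel K.Adj] (act : List ℕ → (ℕ × ℕ × ℕ) × List (ℕ × ℕ × ℕ))
    (φ : List ℕ → W → ℕ) (k : ℕ)
    (hc : chk act (finW K φ) k [] 4 edges4 [(0, 2, 3)] = true) : Forced K :=
  ⟨k + 2 + 2, fun _ hP => force_pair hP fun _ A C hQ hPQ hA hC hA₀ hC₀ hAC =>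
    force_cont (A := A) (C := C) act φ k hc hPQ hQ hA hC hA₀ hC₀ hAC⟩

theorem Forced.sub {V W : Type} {G : SimpleGraph V} {H : SimpleGraph W} (hG : Forced G)
    (h : H ⊑ G) : Forced H := by
  obtain ⟨N, hN⟩ := hG
  obtain ⟨e⟩ := h
  refine ⟨N, fun P hP => (hN P hP).imp hP fun Q _ _ hQ => ?_⟩
  obtain ⟨g, h1, h2, h3, h4⟩ := hQ
  exact ⟨fun x => g (e x), fun x y hxy => e.injective (h1 hxy), fun x => h2 _, fun x => h3 _,
    fun x y hxy => h4 _ _ (e.toHom.map_rel hxy)⟩

theorem Forced.union {V W : Type} {G : SimpleGraph V} {H : SimpleGraph W} (hG : Forced G)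
    (hH : Forced H) : Forced (G ⊕g H) := by
  obtain ⟨N, hN⟩ := hG
  obtain ⟨N', hN'⟩ := hH
  refine ⟨N + N', fun P hP => ?_⟩
  refine ForceN.bind P hP (List.suffix_refl P) (fun Q hQ hs hc => ?_) (hN P hP)
  obtain ⟨p, hp1, hp2, hp3, hp4⟩ := hc
  refine (hN' Q hQ).imp hQ fun Q' _ hs' hr => ?_
  obtain ⟨q, hq1, hq2, hq3, hq4⟩ := hr
  refine ⟨Sum.elim p q, ?_, ?_, ?_, ?_⟩
  · rintro (x | x) (y | y) hxy
    · exact congrArg Sum.inl (hp1 hxy)
    · have e : p x = q y := hxy
      exact absurd (e ▸ hp2 x) (hq3 y)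
    · have e : q x = p y := hxy
      exact absurd (e.symm ▸ hp2 y) (hq3 x)
    · exact congrArg Sum.inr (hq1 hxy)
  · rintro (x | x)
    · exact hs'.subset (hp2 x)
    · exact hq2 x
  · rintro (x | x)
    · exact hp3 x
    · exact fun h => hq3 x (hs.subset h)
  · rintro (x | x) (y | y) hxy
    · exact hp4 x y (SimpleGraph.sum_adj_inl.1 hxy)
    · simp at hxy
    · simp at hxy
    · exact hq4 x y (SimpleGraph.sum_adj_inr.1 hxy)

theorem Flex.of_piece {W : Type} {K : SimpleGraph W} (h : Piece K) : Flex K := by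
  cases h with
  | wheel n hn => exact flex_wheel n hn
  | prism => exact flex_prism

theorem forced_of_cls {V : Type} {H : SimpleGraph V} (h : Cls H) : Forced H := by
  induction h with
  | network h hn => exact (forced_of_chk actA _ 4 chkA).sub (network_le h hn)
  | hept hD =>
    simp only [heptTriangulations, List.mem_cons, List.not_mem_nil, or_false] at hD
    rcases hD with rfl | rfl | rfl
    · exact forced_of_chk actA _ 4 chkA
    · exact forced_of_chk actB _ 5 chkB
    · exact forced_of_chk actC _ 6 chkC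
  | sub hG h ih => exact ih.sub h
  | union hG hH ih ih' => exact ih.union ih'
  | @glue V W X G K H hG hK u v a b huv hab f g hf hg hu hv hfg hcov hadj ih =>
    classical
    obtain ⟨N, hN⟩ := ih
    obtain ⟨N', hN'⟩ := Flex.of_piece hK a b hab
    refine ⟨N + N', fun P hP => ?_⟩
    refine ForceN.bind P hP (List.suffix_refl P) (fun Q hQ hsP hc => ?_) (hN P hP)
    obtain ⟨p, hp1, hp2, hp0, hp3⟩ := hc
    refine (hN' Q (p u) (p v) hQ (hp2 u) (hp2 v) (hp3 u v huv)).imp hQ fun Q' _ hs hr => ?_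
    obtain ⟨q, hq1, hqa, hqb, hq2, hq3, hq4⟩ := hr
    -- the map on the glued graph
    obtain ⟨r, hr⟩ : ∃ r : X → Circ, (∀ x, r (f x) = p x) ∧ ∀ y, r (g y) = q y := by
      refine ⟨fun z => if hz : ∃ x, f x = z then p hz.choose else
        if hz' : ∃ y, g y = z then q hz'.choose else p u, fun x => ?_, fun y => ?_⟩
      · have hz : ∃ x', f x' = f x := ⟨x, rfl⟩
        simp only [dif_pos hz]
        exact congrArg p (hf hz.choose_spec)
      · by_cases hz : ∃ x, f x = g y
        · simp only [dif_pos hz]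
          have h1 := hz.choose_spec
          obtain ⟨x, hx⟩ : ∃ x, x = hz.choose := ⟨_, rfl⟩
          rw [← hx] at h1 ⊢
          rcases hfg x y h1 with h2 | h2
          · rw [h2] at h1 ⊢
            have h3 : a = y := hg (hu.symm.trans h1)
            rw [← h3, hqa]
          · rw [h2] at h1 ⊢
            have h3 : b = y := hg (hv.symm.trans h1)
            rw [← h3, hqb]
        · have hz' : ∃ y', g y' = g y := ⟨y, rfl⟩
          simp only [dif_neg hz, dif_pos hz']
          exact congrArg q (hg hz'.choose_spec)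
    obtain ⟨hrf, hrg⟩ := hr
    have hQQ' : ∀ D ∈ Q, D ∈ Q' := fun D hD => hs.subset hD
    have hne : ∀ x y, r (f x) = r (g y) → f x = g y := by
      intro x y hxy
      rw [hrf, hrg] at hxy
      by_cases hya : y = a
      · rw [hya] at hxy ⊢
        rw [hqa] at hxy
        rw [hp1 hxy, hu]
      by_cases hyb : y = b
      · rw [hyb] at hxy ⊢
        rw [hqb] at hxy
        rw [hp1 hxy, hv]
      exact absurd (hxy ▸ hp2 x) (hq3 y hya hyb)
    refine ⟨r, ?_, ?_, ?_, ?_⟩
    · intro z z' hzz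
      rcases hcov z with ⟨x, rfl⟩ | ⟨y, rfl⟩ <;> rcases hcov z' with ⟨x', rfl⟩ | ⟨y', rfl⟩
      · rw [hrf, hrf] at hzz
        rw [hp1 hzz]
      · exact hne x y' hzz
      · exact (hne x' y hzz.symm).symm
      · rw [hrg, hrg] at hzz
        rw [hq1 hzz]
    · intro z
      rcases hcov z with ⟨x, rfl⟩ | ⟨y, rfl⟩
      · rw [hrf]
        exact hQQ' _ (hp2 x)
      · rw [hrg]
        exact hq2 y
    · intro z
      rcases hcov z with ⟨x, rfl⟩ | ⟨y, rfl⟩
      · rw [hrf]
        exact hp0 x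
      · rw [hrg]
        by_cases hya : y = a
        · rw [hya, hqa]
          exact hp0 u
        by_cases hyb : y = b
        · rw [hyb, hqb]
          exact hp0 v
        exact fun h => hq3 y hya hyb (hsP.subset h)
    · intro z z' hzz
      rcases hadj z z' hzz with ⟨x, y, hxy, rfl, rfl⟩ | ⟨x, y, hxy, rfl, rfl⟩
      · rw [hrf, hrf]
        exact hp3 x y hxy
      · rw [hrg, hrg]
        exact hq4 x y hxy

theorem contained_of_cont {V : Type} {H : SimpleGraph V} {P Q : List Circ} (h : Cont H P Q) :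
    H ⊑ contactGraph Q := by
  obtain ⟨g, h1, h2, -, h3⟩ := h
  refine ⟨⟨⟨fun x => ⟨g x, h2 x⟩, fun {x y} hxy => ⟨fun e => ?_, tangent_of _ _ (h3 x y hxy)⟩⟩,
    fun x y hxy => h1 (congrArg Subtype.val hxy)⟩⟩
  exact hxy.ne (h1 (congrArg Subtype.val e))

theorem builderWins_of_cls {V : Type} {H : SimpleGraph V} (h : Cls H) (P₀ : List Circ)
    (hP : P₀.Pairwise fun C D => Disjoint C.interior D.interior) : BuilderWins H P₀ := by
  obtain ⟨N, hN⟩ := forced_of_cls h
  obtain ⟨σ, hσ⟩ := exists_strategy (Cont H P₀) N P₀ (hN P₀ hP)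
  refine ⟨σ, fun s hs => ?_⟩
  obtain ⟨h1, i, hi⟩ := hσ s hs
  exact ⟨h1, i, contained_of_cont hi⟩

end Pool.Agent.H87.CPG
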