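import Pool.Agent.H87.CPG.Start

/-!
Growing a wheel with a given hub.
-/

set_option autoImplicit false

namespace Pool.Agent.H87.CPG

/-- A path of tangent circles of `Q`, all tangent to the circle `H`. -/
structure Rim (Q : List Circ) (H : Circ) (L : List Circ) : Prop where
  mH : H ∈ Q
  mem : ∀ z ∈ L, z ∈ Q
  hub : ∀ z ∈ L, B H z = -1
  nodup : L.Nodup
  chain : L.IsChain fun x y => B x y = -1

/-- `Q` contains a closed path of `n` tangent circles around `H`, which contains the path `R`,
and the other circles of the path are not in `P`. -/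
def HasRim (P : List Circ) (H : Circ) (R : List Circ) (n : ℕ) (Q : List Circ) : Prop :=
  ∃ y M x, Rim Q H (y :: (M ++ [x])) ∧ B x y = -1 ∧ (y :: (M ++ [x])).length = n ∧
    R <:+: y :: (M ++ [x]) ∧ ∀ z ∈ y :: (M ++ [x]), z ∉ R → z ∉ P

theorem Rim.weaken {Q Q' : List Circ} {H : Circ} {L : List Circ} (h : Rim Q H L)
    (hQ : ∀ D ∈ Q, D ∈ Q') : Rim Q' H L :=
  ⟨hQ _ h.mH, fun z hz => hQ z (h.mem z hz), h.hub, h.nodup, h.chain⟩

/-- a circle is added at the front -/
theorem Rim.front {Q : List Circ} {H y E : Circ} {L : List Circ} (h : Rim Q H (y :: L))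
    (hl : E ∉ Q) (hHE : B H E = -1) (hEy : B E y = -1) : Rim (E :: Q) H (E :: y :: L) := by
  refine ⟨List.mem_cons_of_mem _ h.mH, fun z hz => ?_, fun z hz => ?_, ?_, ?_⟩
  · rcases List.mem_cons.1 hz with rfl | hz
    · exact List.mem_cons_self
    · exact List.mem_cons_of_mem _ (h.mem z hz)
  · rcases List.mem_cons.1 hz with rfl | hz
    · exact hHE
    · exact h.hub z hz
  · exact List.nodup_cons.2 ⟨fun hE => hl (h.mem E hE), h.nodup⟩
  · exact List.isChain_cons_cons.2 ⟨hEy, h.chain⟩

/-- a circle is added at the end -/
theorem Rim.back {Q : List Circ} {H x E : Circ} {L : List Circ} (h : Rim Q H (L ++ [x]))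
    (hl : E ∉ Q) (hHE : B H E = -1) (hxE : B x E = -1) :
    Rim (E :: Q) H (L ++ [x] ++ [E]) := by
  refine ⟨List.mem_cons_of_mem _ h.mH, fun z hz => ?_, fun z hz => ?_, ?_, ?_⟩
  · rcases List.mem_append.1 hz with hz | hz
    · exact List.mem_cons_of_mem _ (h.mem z hz)
    · rw [List.mem_singleton] at hz
      subst hz
      exact List.mem_cons_self
  · rcases List.mem_append.1 hz with hz | hz
    · exact h.hub z hz
    · rw [List.mem_singleton] at hz
      subst hz
      exact hHE
  · refine List.nodup_append.2 ⟨h.nodup, by simp, fun a ha b hb hab => ?_⟩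
    rw [List.mem_singleton] at hb
    subst hab
    subst hb
    exact hl (h.mem _ ha)
  · refine List.IsChain.append h.chain (by simp) fun a ha b hb => ?_
    simp only [List.getLast?_append, List.getLast?_singleton, Option.some_or,
      Option.mem_def, Option.some.injEq, List.head?_cons] at ha hb
    subst ha
    subst hb
    exact hxE

/-- Growing with a live face. -/
theorem grow {P R : List Circ} {H : Circ} : ∀ (m : ℕ) {Q : List Circ} {y x : Circ}
    {M : List Circ} {w : Vec}, Valid Q → (∀ D ∈ P, D ∈ Q) → Rim Q H (y :: (M ++ [x])) →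
    Live Q H x y w → R <:+: y :: (M ++ [x]) →
    (∀ z ∈ y :: (M ++ [x]), z ∉ R → z ∉ P) →
    ForceN (HasRim P H R ((y :: (M ++ [x])).length + m)) m Q
  | 0, Q, y, x, M, w, hQ, hP, hR, hL, hin, hnew =>
    ⟨y, M, x, hR, hL.YZ, rfl, hin, hnew⟩
  | m + 1, Q, y, x, M, w, hQ, hP, hR, hL, hin, hnew => by
    obtain ⟨E, hE, hl⟩ := hL.stack hQ
    have hEQ := hl.notMem
    have hHE : B H E = -1 := hL.toTri.tangent hE
    have hxE : B x E = -1 := hL.swap12.toTri.tangent (by rw [hE]; abel)
    have hyE : B y E = -1 := hL.swap23.swap12.toTri.tangent (by rw [hE]; abel)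
    have hEy : B E y = -1 := by rw [B_comm]; exact hyE
    refine ForceN.step E hl fun S hS => ?_
    have hV : Valid (S :: E :: Q) := (hQ.cons hl).cons hS
    have c1 : Live (E :: Q) H x E (vec H + vec x + w) := hL.child hQ hE
    have c2 : Live (E :: Q) H y E (vec H + vec y + w) :=
      hL.swap23.child hQ (by rw [hE]; abel)
    have hi : Ind (E :: Q) (vec H + vec x + w) (vec H + vec y + w) := ind_child hL.mX hE
    have hP' : ∀ D ∈ P, D ∈ S :: E :: Q := fun D hD =>
      List.mem_cons_of_mem _ (List.mem_cons_of_mem _ (hP D hD))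
    have hEP : E ∉ P := fun h => hEQ (hP E h)
    rcases hi.alive hS with h | h
    · have r1 : Rim (S :: E :: Q) H (E :: ((y :: M) ++ [x])) :=
        (hR.front hEQ hHE hEy).weaken fun D hD => List.mem_cons_of_mem _ hD
      have g := grow m (P := P) (R := R) hV hP' r1 (c1.cons h)
        (hin.trans ⟨[E], [], by simp⟩) (fun z hz hzR => by
          rcases List.mem_cons.1 hz with rfl | hz
          · exact hEP
          · exact hnew z hz hzR)
      have e : (E :: ((y :: M) ++ [x])).length + m = (y :: (M ++ [x])).length + (m + 1) := by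
        simp only [List.length_cons, List.cons_append]
        omega
      rw [← e]
      exact g
    · have r2 : Rim (S :: E :: Q) H (y :: ((M ++ [x]) ++ [E])) := by
        have := (Rim.back (L := y :: M) hR hEQ hHE hxE).weaken (Q' := S :: E :: Q)
          fun D hD => List.mem_cons_of_mem _ hD
        simpa using this
      have g := grow m (P := P) (R := R) hV hP' r2 (c2.cons h).swap23
        (hin.trans ⟨[], [E], by simp⟩) (fun z hz hzR => by
          have hz' : z ∈ y :: (M ++ [x]) ∨ z = E := by
            simp only [List.mem_cons, List.mem_append] at hz ⊢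
            tauto
          rcases hz' with hz' | rfl
          · exact hnew z hz' hzR
          · exact hEP)
      have e : (y :: ((M ++ [x]) ++ [E])).length + m = (y :: (M ++ [x])).length + (m + 1) := by
        simp only [List.length_cons, List.length_append, List.length_nil]
        omega
      rw [← e]
      exact g

/-- Growing on the outer side. -/
theorem grow_outer {P : List Circ} {A C : Circ} {v w : Vec} (F : Frame A C v w) (hA : A ∈ P)
    (hC : C ∈ P) : ∀ (m : ℕ) {Q : List Circ} {Y : Circ} {M : List Circ} {σ : ℝ},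
    (∀ j : ℕ, j ≤ m → Far P A C v w (σ - j)) → Outer P Q A C Y v w σ →
    Rim Q A (C :: (M ++ [Y])) → (∀ z ∈ C :: (M ++ [Y]), z ∉ [C] → z ∉ P) →
    ForceN (HasRim P A [C] ((C :: (M ++ [Y])).length + m)) m Q
  | 0, Q, Y, M, σ, hf, hO, hR, hnew => by
    refine ⟨C, M, Y, hR, ?_, rfl, ⟨[], M ++ [Y], by simp⟩, hnew⟩
    rw [B, hO.e]
    exact vt_C F σ
  | m + 1, Q, Y, M, σ, hf, hO, hR, hnew => by
    have hf0 : Far P A C v w σ := by simpa using hf 0 (by omega)
    have hf1 : Far P A C v w (σ - 1) := by simpa using hf 1 (by omega)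
    obtain ⟨Z, hZ, hZ', hl, L1, -⟩ := outer_step F hA hC hf0 hf1 hO
    have hZQ := hl.notMem
    have hAZ : B A Z = -1 := L1.XZ
    have hYZ : B Y Z = -1 := L1.YZ
    have hZC : B Z C = -1 := by
      rw [B, hZ']
      exact vt_C F _
    have hZP : Z ∉ P := fun h => hZQ (hO.sub Z h)
    refine ForceN.step Z hl fun S hS => ?_
    have hV : Valid (S :: Z :: Q) := (hO.val.cons hl).cons hS
    have hP' : ∀ D ∈ P, D ∈ S :: Z :: Q := fun D hD =>
      List.mem_cons_of_mem _ (List.mem_cons_of_mem _ (hO.sub D hD))
    rcases le_or_gt (Bf (vec A + vec Y + -wt A C w σ) (vec S)) (-1) with h | h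
    · have r1 : Rim (S :: Z :: Q) A (Z :: ((C :: M) ++ [Y])) :=
        (hR.front hZQ hAZ hZC).weaken fun D hD => List.mem_cons_of_mem _ hD
      have g := grow m (P := P) (R := [C]) hV hP' r1 (L1.cons h)
        ⟨[Z], M ++ [Y], by simp⟩ (fun z hz hzR => by
          rcases List.mem_cons.1 hz with rfl | hz
          · exact hZP
          · exact hnew z hz hzR)
      have e : (Z :: ((C :: M) ++ [Y])).length + m = (C :: (M ++ [Y])).length + (m + 1) := by
        simp only [List.length_cons, List.cons_append]
        omega
      rw [← e]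
      exact g
    · have r2 : Rim (S :: Z :: Q) A (C :: ((M ++ [Y]) ++ [Z])) := by
        have := (Rim.back (L := C :: M) hR hZQ hAZ hYZ).weaken (Q' := S :: Z :: Q)
          fun D hD => List.mem_cons_of_mem _ hD
        simpa using this
      have hO' := outer_next F hA hC hO hZ hZ' hl hS h
      have g := grow_outer F hA hC m (M := M ++ [Y]) (σ := σ - 1) (fun j hj => by
          have := hf (j + 1) (by omega)
          rw [Nat.cast_add, Nat.cast_one] at this
          rwa [show σ - 1 - (j : ℝ) = σ - ((j : ℝ) + 1) by ring]) hO' r2 (fun z hz hzR => by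
          have hz' : z ∈ C :: (M ++ [Y]) ∨ z = Z := by
            simp only [List.mem_cons, List.mem_append] at hz ⊢
            tauto
          rcases hz' with hz' | rfl
          · exact hnew z hz' hzR
          · exact hZP)
      have e : (C :: ((M ++ [Y]) ++ [Z])).length + m = (C :: (M ++ [Y])).length + (m + 1) := by
        simp only [List.length_cons, List.length_append, List.length_nil]
        omega
      rw [← e]
      exact g

/-- A wheel with hub `A` and with `C` on the rim. -/
theorem force_spoke {P : List Circ} (hP : Valid P) {A C : Circ} (hA : A ∈ P) (hC : C ∈ P)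
    (hAC : B A C = -1) (m : ℕ) : ForceN (HasRim P A [C] (m + 3)) (m + 2) P := by
  obtain ⟨v, w, F⟩ := exists_frame A C hAC
  obtain ⟨T₀, hT₀⟩ := exists_far_frame hP hA hC v w
  obtain ⟨τ, hτ⟩ : ∃ τ, τ = T₀ + (m + 1 : ℕ) := ⟨_, rfl⟩
  have hf : ∀ j : ℕ, j ≤ m + 1 → Far P A C v w (τ - j) := by
    intro j hj
    apply hT₀
    rw [hτ]
    have : (j : ℝ) ≤ ((m + 1 : ℕ) : ℝ) := by exact_mod_cast hj
    linarith
  have hf0 : Far P A C v w τ := by simpa using hf 0 (by omega)
  obtain ⟨Y, e, hY⟩ := exists_first F hf0
  have hYP := hY.notMem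
  have hAY : B A Y = -1 := by rw [B, Bf_comm, e]; exact vt_A F _
  have hCY : B C Y = -1 := by rw [B, Bf_comm, e]; exact vt_C F _
  refine ForceN.step Y hY fun S hS => ?_
  have hneYC : C ≠ Y := fun h => hYP (h ▸ hC)
  have r0 : Rim (S :: Y :: P) A (C :: ([] ++ [Y])) := by
    refine ⟨List.mem_cons_of_mem _ (List.mem_cons_of_mem _ hA), fun z hz => ?_,
      fun z hz => ?_, ?_, ?_⟩
    · simp only [List.nil_append, List.mem_cons, List.not_mem_nil, or_false] at hz
      rcases hz with rfl | rfl
      · exact List.mem_cons_of_mem _ (List.mem_cons_of_mem _ hC)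
      · exact List.mem_cons_of_mem _ List.mem_cons_self
    · simp only [List.nil_append, List.mem_cons, List.not_mem_nil, or_false] at hz
      rcases hz with rfl | rfl
      · exact hAC
      · exact hAY
    · simp [hneYC]
    · simp [hCY]
  have n0 : ∀ z ∈ C :: ([] ++ [Y]), z ∉ [C] → z ∉ P := by
    intro z hz hz2
    simp only [List.nil_append, List.mem_cons, List.not_mem_nil, or_false] at hz hz2
    rcases hz with rfl | rfl
    · exact absurd rfl hz2
    · exact hYP
  rcases le_total (Bf (wt A C w τ) (vec S)) 0 with h | h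
  · -- the inner side is free
    obtain ⟨Z, hZ, hl, L1, -, L3⟩ := inner_step hP F hA hC hf0 e hY hS h
    refine ForceN.step Z hl fun S' hS' => ?_
    have hV : Valid (S' :: Z :: S :: Y :: P) := (((hP.cons hY).cons hS).cons hl).cons hS'
    have hP' : ∀ D ∈ P, D ∈ S' :: Z :: S :: Y :: P := fun D hD => by simp [hD]
    have hi : Ind (Z :: S :: Y :: P) (vec A + vec Y + wt A C w τ)
        (vec A + vec C + wt A C w τ) :=
      ind_child (P := S :: Y :: P) (X := A) (Y := Y) (Z := C) (by simp [hA])
        (by rw [hZ]; abel)
    have hZQ := hl.notMem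
    have hZP : Z ∉ P := fun h => hZQ (by simp [h])
    have hAZ : B A Z = -1 := L1.XZ
    have hYZ : B Y Z = -1 := L1.YZ
    have hCZ : B C Z = -1 := L3.YZ
    have hZC : B Z C = -1 := by rw [B_comm]; exact hCZ
    rcases hi.alive hS' with h2 | h2
    · have r1 : Rim (S' :: Z :: S :: Y :: P) A (Z :: ([C] ++ [Y])) :=
        (r0.front hZQ hAZ hZC).weaken fun D hD => List.mem_cons_of_mem _ hD
      have g := grow m (P := P) (R := [C]) hV hP' r1 (L1.cons h2)
        ⟨[Z], [Y], by simp⟩ (fun z hz hzR => by
          rcases List.mem_cons.1 hz with rfl | hz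
          · exact hZP
          · exact n0 z (by simpa using hz) hzR)
      have e : (Z :: ([C] ++ [Y])).length + m = m + 3 := by
        simp only [List.length_cons, List.cons_append, List.nil_append, List.length_nil]
        omega
      rw [e] at g
      exact g
    · have r2 : Rim (S' :: Z :: S :: Y :: P) A (C :: ([Y] ++ [Z])) := by
        have := (Rim.back (L := [C]) r0 hZQ hAZ hYZ).weaken (Q' := S' :: Z :: S :: Y :: P)
          fun D hD => List.mem_cons_of_mem _ hD
        simpa using this
      have g := grow m (P := P) (R := [C]) hV hP' r2 (L3.cons h2).swap23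
        ⟨[], [Y] ++ [Z], by simp⟩ (fun z hz hzR => by
          have hz' : z ∈ C :: ([] ++ [Y]) ∨ z = Z := by
            simp only [List.nil_append, List.cons_append, List.mem_cons,
              List.not_mem_nil, or_false] at hz ⊢
            tauto
          rcases hz' with hz' | rfl
          · exact n0 z hz' hzR
          · exact hZP)
      have e : (C :: ([Y] ++ [Z])).length + m = m + 3 := by
        simp only [List.length_cons, List.cons_append, List.nil_append, List.length_nil]
        omega
      rw [e] at g
      exact g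
  · -- the outer side is free
    have hO := outer_first hP e hY hS h
    have g := grow_outer F hA hC (m + 1) (M := []) hf hO r0 n0
    have e : (C :: ([] ++ [Y])).length + (m + 1) = m + 3 := by
      simp only [List.length_cons, List.nil_append, List.length_nil]
      omega
    rw [e] at g
    exact g

/-- A wheel with `A` and `C` on the rim. -/
theorem force_rim {P : List Circ} (hP : Valid P) {A C : Circ} (hA : A ∈ P) (hC : C ∈ P)
    (hAC : B A C = -1) (m : ℕ) :
    ForceN (fun Q => ∃ H, H ∉ P ∧ (HasRim P H [A, C] (m + 3) Q ∨ HasRim P H [C, A] (m + 3) Q))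
      (m + 2) P := by
  refine force_K4 hP hA hC hAC fun Q Y Z hQ hs hYP hZP hAY hCY hAZ hCZ hLive => ?_
  have hP' : ∀ D ∈ P, D ∈ Q := fun D hD => hs.subset hD
  have hCA : B C A = -1 := by rw [B_comm]; exact hAC
  have hYA : B Y A = -1 := by rw [B_comm]; exact hAY
  have hYC : B Y C = -1 := by rw [B_comm]; exact hCY
  have hneAC : A ≠ C := ne_of_B hAC
  have hneAZ : A ≠ Z := ne_of_B hAZ
  have hneCZ : C ≠ Z := ne_of_B hCZ
  rcases hLive with ⟨u, L⟩ | ⟨u, L⟩
  · have hYZ : B Y Z = -1 := L.YZ
    have r : Rim Q Y (A :: ([C] ++ [Z])) := by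
      refine ⟨L.mY, fun z hz => ?_, fun z hz => ?_, ?_, ?_⟩
      · simp only [List.cons_append, List.nil_append, List.mem_cons, List.not_mem_nil,
          or_false] at hz
        rcases hz with rfl | rfl | rfl
        · exact L.mX
        · exact hP' _ hC
        · exact L.mZ
      · simp only [List.cons_append, List.nil_append, List.mem_cons, List.not_mem_nil,
          or_false] at hz
        rcases hz with rfl | rfl | rfl
        · exact hYA
        · exact hYC
        · exact hYZ
      · simp [hneAC, hneAZ, hneCZ]
      · simp [hAC, hCZ]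
    have g := grow m (P := P) (R := [A, C]) hQ hP' r L.swap12.swap23
      ⟨[], [Z], by simp⟩ (fun z hz hzR => by
        simp only [List.cons_append, List.nil_append, List.mem_cons, List.not_mem_nil,
          or_false, not_or] at hz hzR
        rcases hz with rfl | rfl | rfl
        · exact absurd rfl hzR.1
        · exact absurd rfl hzR.2
        · exact hZP)
    have e : (A :: ([C] ++ [Z])).length + m = m + 3 := by
      simp only [List.length_cons, List.cons_append, List.nil_append, List.length_nil]
      omega
    rw [e] at g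
    exact g.imp hQ fun Q' _ _ h => ⟨Y, hYP, Or.inl h⟩
  · have hYZ : B Y Z = -1 := L.YZ
    have r : Rim Q Y (C :: ([A] ++ [Z])) := by
      refine ⟨L.mY, fun z hz => ?_, fun z hz => ?_, ?_, ?_⟩
      · simp only [List.cons_append, List.nil_append, List.mem_cons, List.not_mem_nil,
          or_false] at hz
        rcases hz with rfl | rfl | rfl
        · exact L.mX
        · exact hP' _ hA
        · exact L.mZ
      · simp only [List.cons_append, List.nil_append, List.mem_cons, List.not_mem_nil,
          or_false] at hz
        rcases hz with rfl | rfl | rfl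
        · exact hYC
        · exact hYA
        · exact hYZ
      · simp [hneAC.symm, hneAZ, hneCZ]
      · simp [hCA, hAZ]
    have g := grow m (P := P) (R := [C, A]) hQ hP' r L.swap12.swap23
      ⟨[], [Z], by simp⟩ (fun z hz hzR => by
        simp only [List.cons_append, List.nil_append, List.mem_cons, List.not_mem_nil,
          or_false, not_or] at hz hzR
        rcases hz with rfl | rfl | rfl
        · exact absurd rfl hzR.1
        · exact absurd rfl hzR.2
        · exact hZP)
    have e : (C :: ([A] ++ [Z])).length + m = m + 3 := by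
      simp only [List.length_cons, List.cons_append, List.nil_append, List.length_nil]
      omega
    rw [e] at g
    exact g.imp hQ fun Q' _ _ h => ⟨Y, hYP, Or.inr h⟩

end Pool.Agent.H87.CPG
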