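import Pool.Agent.H87.CPG.Cores

/-!
Apollonian networks with at most seven vertices.
-/

set_option autoImplicit false

open scoped SimpleGraph

namespace Pool.Agent.H87.CPG

/-- the ways to choose an entry of a list, and the other entries -/
def picks {α : Type} : List α → List (α × List α)
  | [] => []
  | x :: l => (x, l) :: (picks l).map fun p => (p.1, x :: p.2)

theorem mem_picks {α : Type} (l : List α) (x : α) (l' : List α) :
    (x, l ++ l') ∈ picks (l ++ x :: l') := by
  induction l with
  | nil => exact List.mem_cons_self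
  | cons y l ih =>
    exact List.mem_cons_of_mem _ (List.mem_map.2 ⟨(x, l ++ l'), ih, rfl⟩)

/-- all networks with `k + 3` vertices -/
def nets : ℕ → List (List (ℕ × ℕ) × List (ℕ × ℕ × ℕ))
  | 0 => [([(0, 1), (0, 2), (1, 2)], [(0, 1, 2), (0, 1, 2)])]
  | k + 1 => (nets k).flatMap fun p => (picks p.2).map fun q =>
    ((q.1.1, k + 3) :: (q.1.2.1, k + 3) :: (q.1.2.2, k + 3) :: p.1,
      (q.1.1, q.1.2.1, k + 3) :: (q.1.1, q.1.2.2, k + 3) :: (q.1.2.1, q.1.2.2, k + 3) :: q.2)

theorem mem_nets {n : ℕ} {E : List (ℕ × ℕ)} {F : List (ℕ × ℕ × ℕ)} (h : Network n E F) :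
    ∃ k, n = k + 3 ∧ (E, F) ∈ nets k := by
  induction h with
  | triangle => exact ⟨0, rfl, List.mem_singleton.2 rfl⟩
  | @insert n E F F' a b c h ih =>
    obtain ⟨k, hk, hm⟩ := ih
    subst hk
    refine ⟨k + 1, rfl, ?_⟩
    rw [nets, List.mem_flatMap]
    exact ⟨_, hm, List.mem_map.2 ⟨((a, b, c), F ++ F'), mem_picks F (a, b, c) F', rfl⟩⟩

/-- the digit number `i` of `e` in base `8` -/
def dig (e i : ℕ) : ℕ := (e / 8 ^ i) % 8

/-- the adjacency matrix of the graph `hubHept [(0, 2), (0, 3), (0, 5), (3, 5)]` -/
def adjM (a b : ℕ) : Bool := Nat.testBit 9196871232690816494 (8 * a + b)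

/-- the code `e` is an embedding -/
def good (n : ℕ) (E : List (ℕ × ℕ)) (e : ℕ) : Bool :=
  (E.all fun p => adjM (dig e p.1) (dig e p.2)) &&
    (List.range n).all fun i => (List.range i).all fun j => dig e i != dig e j

/-- check a table of embeddings -/
def chkAll (n : ℕ) : List (List (ℕ × ℕ) × List (ℕ × ℕ × ℕ)) → List ℕ → Bool
  | [], _ => true
  | _ :: _, [] => false
  | p :: ps, e :: es => good n p.1 e && chkAll n ps es

theorem chkAll_sound {n : ℕ} : ∀ {ps : List (List (ℕ × ℕ) × List (ℕ × ℕ × ℕ))} {es : List ℕ},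
    chkAll n ps es = true → ∀ p ∈ ps, ∃ e, good n p.1 e = true
  | [], _, _, p, hp => absurd hp (List.not_mem_nil)
  | _ :: _, [], h, _, _ => by simp [chkAll] at h
  | q :: ps, e :: es, h, p, hp => by
    rw [chkAll, Bool.and_eq_true] at h
    rcases List.mem_cons.1 hp with rfl | hp
    · exact ⟨e, h.1⟩
    · exact chkAll_sound h.2 p hp

/-- the embeddings for `3` vertices -/
def tab3 : List ℕ := [
  136]

theorem tab3_ok : chkAll 3 (nets 0) tab3 = true := by
  decide +kernel

/-- the embeddings for `4` vertices -/
def tab4 : List ℕ := [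
  3720, 3720]

theorem tab4_ok : chkAll 4 (nets 1) tab4 = true := by
  decide +kernel

/-- the embeddings for `5` vertices -/
def tab5 : List ℕ := [
  15952, 16008, 20312, 13264, 15952, 16008, 20312, 13264]

theorem tab5_ok : chkAll 5 (nets 2) tab5 = true := by
  decide +kernel

/-- the embeddings for `6` vertices -/
def tab6 : List ℕ := [
  177272, 179792, 155288, 171728, 143192, 54968, 177608, 179848, 155344, 57040, 159576, 55248,
  177601, 179841, 179729, 85848, 216920, 84952, 176824, 177104, 153048, 169656, 169936, 142296,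
  177272, 179792, 155288, 171728, 143192, 54968, 177608, 179848, 155344, 57040, 159576, 55248,
  177601, 179841, 179729, 85848, 216920, 84952, 176824, 177104, 153048, 169656, 169936, 142296]

theorem tab6_ok : chkAll 6 (nets 3) tab6 = true := by
  decide +kernel

/-- the embeddings for `7` vertices -/
def tab7 : List ℕ := [
  1750136, 1225799, 1225848, 1267335, 1267384, 1091399, 1091448, 480952, 1752656, 1224791,
  1228368, 1726087, 1269400, 482968, 1093464, 415367, 1752642, 1224826, 1228354, 1726136,
  1728152, 417432, 482947, 415416, 1216727, 1744592, 1220304, 403271, 1629848, 1105560, 1257304,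
  682695, 1216762, 1744578, 1220290, 403320, 405336, 1629827, 1716056, 682744, 1742072, 1217735,
  1217784, 1627832, 1103495, 1103544, 1141447, 1141496, 1750472, 1225743, 1226184, 1267223,
  1267664, 413911, 1091560, 481232, 1752712, 1224847, 1228424, 1725975, 1269456, 483024, 1093352,
  415255, 1752586, 1225162, 1228298, 1726416, 1728208, 417488, 482835, 415696, 345927, 1744536,
  1220248, 1102039, 1629904, 1105616, 1142616, 740039, 1216986, 1220122, 1744410, 403432, 405224,
  1629715, 683864, 682968, 346823, 1742296, 1218008, 1628112, 1103383, 1103824, 1657543, 1141720,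
  1750465, 1225785, 1226177, 1267258, 1267650, 413946, 414170, 481218, 1752705, 1224889, 1228417,
  1726010, 1269442, 483010, 417306, 415290, 1752593, 1225169, 1228305, 1726402, 1728194, 417474,
  482842, 415682, 345976, 347992, 1744515, 1102074, 1629890, 1105602, 1658712, 740088, 346088,
  347880, 1744403, 1102298, 1105434, 1629722, 741208, 740312, 346872, 347096, 1742275, 1628098,
  1103418, 1103810, 1657592, 1657816, 1749688, 1225351, 1225400, 1266887, 1266936, 480504,
  1092295, 1092344, 1749968, 1225239, 1225680, 1725639, 1267160, 414919, 480728, 1092568,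
  1749954, 1225274, 1225666, 1725688, 1725912, 414968, 415192, 480707, 1742520, 1218183, 1218232,
  1627384, 1103047, 1103096, 1256135, 1256184, 1742800, 1218071, 1218512, 404167, 1627608,
  1103320, 1714887, 1256408, 1742786, 1218106, 1218498, 404216, 404440, 1627587, 1714936,
  1715160, 1750136, 1225799, 1225848, 1267335, 1267384, 1091399, 1091448, 480952, 1752656,
  1224791, 1228368, 1726087, 1269400, 482968, 1093464, 415367, 1752642, 1224826, 1228354,
  1726136, 1728152, 417432, 482947, 415416, 1216727, 1744592, 1220304, 403271, 1629848, 1105560,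
  1257304, 682695, 1216762, 1744578, 1220290, 403320, 405336, 1629827, 1716056, 682744, 1742072,
  1217735, 1217784, 1627832, 1103495, 1103544, 1141447, 1141496, 1750472, 1225743, 1226184,
  1267223, 1267664, 413911, 1091560, 481232, 1752712, 1224847, 1228424, 1725975, 1269456, 483024,
  1093352, 415255, 1752586, 1225162, 1228298, 1726416, 1728208, 417488, 482835, 415696, 345927,
  1744536, 1220248, 1102039, 1629904, 1105616, 1142616, 740039, 1216986, 1220122, 1744410,
  403432, 405224, 1629715, 683864, 682968, 346823, 1742296, 1218008, 1628112, 1103383, 1103824,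
  1657543, 1141720, 1750465, 1225785, 1226177, 1267258, 1267650, 413946, 414170, 481218, 1752705,
  1224889, 1228417, 1726010, 1269442, 483010, 417306, 415290, 1752593, 1225169, 1228305, 1726402,
  1728194, 417474, 482842, 415682, 345976, 347992, 1744515, 1102074, 1629890, 1105602, 1658712,
  740088, 346088, 347880, 1744403, 1102298, 1105434, 1629722, 741208, 740312, 346872, 347096,
  1742275, 1628098, 1103418, 1103810, 1657592, 1657816, 1749688, 1225351, 1225400, 1266887,
  1266936, 480504, 1092295, 1092344, 1749968, 1225239, 1225680, 1725639, 1267160, 414919, 480728,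
  1092568, 1749954, 1225274, 1225666, 1725688, 1725912, 414968, 415192, 480707, 1742520, 1218183,
  1218232, 1627384, 1103047, 1103096, 1256135, 1256184, 1742800, 1218071, 1218512, 404167,
  1627608, 1103320, 1714887, 1256408, 1742786, 1218106, 1218498, 404216, 404440, 1627587,
  1714936, 1715160]

theorem tab7_ok : chkAll 7 (nets 4) tab7 = true := by
  decide +kernel

theorem good_exists {n : ℕ} {E : List (ℕ × ℕ)} {F : List (ℕ × ℕ × ℕ)} (h : Network n E F)
    (hn : n ≤ 7) : ∃ e, good n E e = true := by
  obtain ⟨k, hk, hm⟩ := mem_nets h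
  subst hk
  have hk4 : k ≤ 4 := by omega
  interval_cases k
  · exact chkAll_sound tab3_ok _ hm
  · exact chkAll_sound tab4_ok _ hm
  · exact chkAll_sound tab5_ok _ hm
  · exact chkAll_sound tab6_ok _ hm
  · exact chkAll_sound tab7_ok _ hm

theorem adj_of_adjM : ∀ a b : Fin 8, adjM a b = true →
    (hubHept [(0, 2), (0, 3), (0, 5), (3, 5)]).Adj a b := by
  decide

theorem dig_lt (e i : ℕ) : dig e i < 8 := Nat.mod_lt _ (by norm_num)

/-- An Apollonian network with at most seven vertices is a subgraph of a heptagon with a hub. -/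
theorem network_le {n : ℕ} {E : List (ℕ × ℕ)} {F : List (ℕ × ℕ × ℕ)} (h : Network n E F)
    (hn : n ≤ 7) : listGraph n E ⊑ hubHept [(0, 2), (0, 3), (0, 5), (3, 5)] := by
  obtain ⟨e, he⟩ := good_exists h hn
  rw [good, Bool.and_eq_true, List.all_eq_true, List.all_eq_true] at he
  obtain ⟨h1, h2⟩ := he
  have hne : ∀ i j : ℕ, i < n → j < i → dig e i ≠ dig e j := by
    intro i j hi hj
    have h := h2 i (List.mem_range.2 hi)
    rw [List.all_eq_true] at h
    simpa using h j (List.mem_range.2 hj)
  refine ⟨⟨⟨fun i => ⟨dig e i, dig_lt e i⟩, fun {i j} hij => ?_⟩, fun i j hij => ?_⟩⟩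
  · rw [listGraph, SimpleGraph.fromRel_adj] at hij
    rcases hij.2 with h | h
    · exact adj_of_adjM ⟨dig e i, dig_lt e i⟩ ⟨dig e j, dig_lt e j⟩ (h1 _ h)
    · exact (adj_of_adjM ⟨dig e j, dig_lt e j⟩ ⟨dig e i, dig_lt e i⟩ (h1 _ h)).symm
  · have h : dig e i = dig e j := congrArg Fin.val hij
    by_contra hne'
    have hv : (i : ℕ) ≠ j := fun h' => hne' (Fin.ext h')
    rcases lt_or_gt_of_ne hv with hlt | hlt
    · exact hne j i j.2 hlt h.symm
    · exact hne i j i.2 hlt h

end Pool.Agent.H87.CPG
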