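import Pool.Agent.H87.CPG.Frame

/-!
The first moves in the strip of a tangent pair: a complete graph on four circles.
-/

set_option autoImplicit false

namespace Pool.Agent.H87.CPG

/-- the first circle in the strip -/
theorem exists_first {P : List Circ} {A C : Circ} {v w : Vec}
    (F : Frame A C v w) {τ : ℝ} (hf : Far P A C v w τ) :
    ∃ Y, vec Y = vt A C v w τ ∧ Legal P Y := by
  have h1 : Bf (vt A C v w τ) (vt A C v w τ) = 1 := by rw [vt_vt F]; ring
  obtain ⟨Y, hY⟩ := exists_circ _ h1 hf.bv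
  refine ⟨Y, hY, (legal_iff P Y).2 fun S hS => ?_⟩
  rw [B, hY]
  by_cases hA : S = A
  · subst hA
    exact (vt_A F τ).le
  by_cases hC : S = C
  · subst hC
    exact (vt_C F τ).le
  exact hf.S1 S hS hA hC

theorem tri_inner {P : List Circ} {A C Y : Circ} {v w : Vec} (F : Frame A C v w) {τ : ℝ}
    (hA : A ∈ P) (hC : C ∈ P) (hY : Y ∈ P) (e : vec Y = vt A C v w τ) :
    Tri P A C Y (wt A C w τ) := by
  refine ⟨hA, hC, hY, F.AC, ?_, ?_, wt_wt F τ, wt_A F τ, wt_C F τ, ?_⟩
  · rw [B, Bf_comm, e]; exact vt_A F τ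
  · rw [B, Bf_comm, e]; exact vt_C F τ
  · rw [e, wt_vt F]; ring

theorem tri_outer {P : List Circ} {A C Y : Circ} {v w : Vec} (F : Frame A C v w) {τ : ℝ}
    (hA : A ∈ P) (hC : C ∈ P) (hY : Y ∈ P) (e : vec Y = vt A C v w τ) :
    Tri P A C Y (-wt A C w τ) := by
  have h := tri_inner F hA hC hY e
  refine ⟨hA, hC, hY, h.XY, h.XZ, h.YZ, ?_, ?_, ?_, ?_⟩
  · rw [Bf_neg_left, Bf_neg_right, h.ww]; ring
  · rw [Bf_neg_left, h.wX]; ring
  · rw [Bf_neg_left, h.wY]; ring
  · rw [Bf_neg_left, h.wZ]; ring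

/-- The circle `S` does not disturb the inner side of `Y`: the inscribed circle and the three
new live faces. -/
theorem inner_step {P : List Circ} (hP : Valid P) {A C Y S : Circ} {v w : Vec}
    (F : Frame A C v w) {τ : ℝ} (hA : A ∈ P) (hC : C ∈ P) (hf : Far P A C v w τ)
    (e : vec Y = vt A C v w τ) (hY : Legal P Y) (hS : Legal (Y :: P) S)
    (hSw : Bf (wt A C w τ) (vec S) ≤ 0) :
    ∃ Z, vec Z = vec A + vec C + vec Y + (2 : ℝ) • wt A C w τ ∧ Legal (S :: Y :: P) Z ∧
      Live (Z :: S :: Y :: P) A Y Z (vec A + vec Y + wt A C w τ) ∧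
      Live (Z :: S :: Y :: P) C Y Z (vec C + vec Y + wt A C w τ) ∧
      Live (Z :: S :: Y :: P) A C Z (vec A + vec C + wt A C w τ) := by
  have hA' : A ∈ S :: Y :: P := List.mem_cons_of_mem _ (List.mem_cons_of_mem _ hA)
  have hC' : C ∈ S :: Y :: P := List.mem_cons_of_mem _ (List.mem_cons_of_mem _ hC)
  have hY' : Y ∈ S :: Y :: P := List.mem_cons_of_mem _ List.mem_cons_self
  have hV : Valid (S :: Y :: P) := (hP.cons hY).cons hS
  have T := tri_inner F hA' hC' hY' e
  have pA := vec_pos A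
  have pC := vec_pos C
  have pY := vec_pos Y
  have pw := hf.bw
  have hw : ∀ D ∈ S :: Y :: P, D ≠ A → D ≠ C → D ≠ Y → Bf (wt A C w τ) (vec D) ≤ 0 := by
    intro D hD h1 h2 h3
    rcases List.mem_cons.1 hD with rfl | hD
    · exact hSw
    · rcases List.mem_cons.1 hD with rfl | hD
      · exact absurd rfl h3
      · exact (hf.S2 D hD h1 h2).trans (by norm_num)
  obtain ⟨Z, hZ, hl⟩ := T.stack (by linarith) (fun D hD h1 h2 h3 => by
    have e1 : Bf (vec A) (vec D) ≤ -1 := hV.le hA' hD (Ne.symm h1)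
    have e2 : Bf (vec C) (vec D) ≤ -1 := hV.le hC' hD (Ne.symm h2)
    have e3 : Bf (vec Y) (vec D) ≤ -1 := hV.le hY' hD (Ne.symm h3)
    have e4 := hw D hD h1 h2 h3
    simp only [Bf_add_left, Bf_smul_left]
    linarith)
  refine ⟨Z, hZ, hl, ?_, ?_, ?_⟩
  · refine T.swap23.child_live (by rw [hZ]; abel) (by linarith) fun D hD h1 h2 h3 => ?_
    have e1 : Bf (vec A) (vec D) ≤ -1 := hV.le hA' hD (Ne.symm h1)
    have e3 : Bf (vec Y) (vec D) ≤ -1 := hV.le hY' hD (Ne.symm h2)
    have e4 := hw D hD h1 h3 h2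
    simp only [Bf_add_left]
    linarith
  · refine T.swap12.swap23.child_live (by rw [hZ]; abel) (by linarith)
      fun D hD h1 h2 h3 => ?_
    have e1 : Bf (vec C) (vec D) ≤ -1 := hV.le hC' hD (Ne.symm h1)
    have e3 : Bf (vec Y) (vec D) ≤ -1 := hV.le hY' hD (Ne.symm h2)
    have e4 := hw D hD h3 h1 h2
    simp only [Bf_add_left]
    linarith
  · refine T.child_live hZ (by linarith) fun D hD h1 h2 h3 => ?_
    have e1 : Bf (vec A) (vec D) ≤ -1 := hV.le hA' hD (Ne.symm h1)
    have e2 : Bf (vec C) (vec D) ≤ -1 := hV.le hC' hD (Ne.symm h2)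
    have e4 := hw D hD h1 h2 h3
    simp only [Bf_add_left]
    linarith

/-- The state of the outer side: `Y` is the circle at position `σ`, all circles placed later
than `P` are on the inner side of it. -/
structure Outer (P Q : List Circ) (A C Y : Circ) (v w : Vec) (σ : ℝ) : Prop where
  val : Valid Q
  sub : ∀ D ∈ P, D ∈ Q
  mY : Y ∈ Q
  e : vec Y = vt A C v w σ
  out : ∀ S ∈ Q, S ∈ P ∨ S = Y ∨ 0 ≤ Bf (wt A C w σ) (vec S)

theorem outer_step {P Q : List Circ} {A C Y : Circ} {v w : Vec}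
    (F : Frame A C v w) {σ : ℝ} (hA : A ∈ P) (hC : C ∈ P) (hf : Far P A C v w σ)
    (hf' : Far P A C v w (σ - 1)) (hO : Outer P Q A C Y v w σ) :
    ∃ Z, vec Z = vec A + vec C + vec Y + (2 : ℝ) • (-wt A C w σ) ∧
      vec Z = vt A C v w (σ - 1) ∧ Legal Q Z ∧
      Live (Z :: Q) A Y Z (vec A + vec Y + -wt A C w σ) ∧
      Live (Z :: Q) C Y Z (vec C + vec Y + -wt A C w σ) := by
  have hA' : A ∈ Q := hO.sub A hA
  have hC' : C ∈ Q := hO.sub C hC
  have hY' := hO.mY
  have hV := hO.val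
  have T := tri_outer F hA' hC' hY' hO.e
  have pA := vec_pos A
  have pC := vec_pos C
  have pY := vec_pos Y
  have ev : vec A + vec C + vec Y + (2 : ℝ) • (-wt A C w σ) = vt A C v w (σ - 1) := by
    rw [vt_back, hO.e]
  obtain ⟨Z, hZ, hl⟩ := T.stack (by
      have h1 := hf'.bv
      rw [← ev] at h1
      simpa only [Pi.add_apply, Pi.smul_apply, smul_eq_mul, Pi.neg_apply] using h1)
    (fun D hD h1 h2 h3 => by
      rcases hO.out D hD with h4 | h4 | h4
      · rw [ev]
        exact hf'.S1 D h4 h1 h2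
      · exact absurd h4 h3
      · have e1 : Bf (vec A) (vec D) ≤ -1 := hV.le hA' hD (Ne.symm h1)
        have e2 : Bf (vec C) (vec D) ≤ -1 := hV.le hC' hD (Ne.symm h2)
        have e3 : Bf (vec Y) (vec D) ≤ -1 := hV.le hY' hD (Ne.symm h3)
        simp only [Bf_add_left, Bf_smul_left, Bf_neg_left]
        linarith)
  have eY : vec Y = vt A C v w σ := hO.e
  refine ⟨Z, hZ, by rw [hZ, ev], hl, ?_, ?_⟩
  · refine T.swap23.child_live (by rw [hZ]; abel) ?_ fun D hD h1 h2 h3 => ?_
    · have h5 := hf.bA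
      rw [← eY] at h5
      simp only [Pi.neg_apply]
      linarith
    · rcases hO.out D hD with h4 | h4 | h4
      · have h6 := hf.S3 D h4 h1 h3
        rw [← eY] at h6
        simp only [Bf_add_left, Bf_neg_left, Bf_sub_left] at h6 ⊢
        linarith
      · exact absurd h4 h2
      · have e1 : Bf (vec A) (vec D) ≤ -1 := hV.le hA' hD (Ne.symm h1)
        have e3 : Bf (vec Y) (vec D) ≤ -1 := hV.le hY' hD (Ne.symm h2)
        simp only [Bf_add_left, Bf_neg_left]
        linarith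
  · refine T.swap12.swap23.child_live (by rw [hZ]; abel) ?_ fun D hD h1 h2 h3 => ?_
    · have h5 := hf.bC
      rw [← eY] at h5
      simp only [Pi.neg_apply]
      linarith
    · rcases hO.out D hD with h4 | h4 | h4
      · have h6 := hf.S4 D h4 h3 h1
        rw [← eY] at h6
        simp only [Bf_add_left, Bf_neg_left, Bf_sub_left] at h6 ⊢
        linarith
      · exact absurd h4 h2
      · have e1 : Bf (vec C) (vec D) ≤ -1 := hV.le hC' hD (Ne.symm h1)
        have e3 : Bf (vec Y) (vec D) ≤ -1 := hV.le hY' hD (Ne.symm h2)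
        simp only [Bf_add_left, Bf_neg_left]
        linarith

theorem outer_first {P : List Circ} (hP : Valid P) {A C Y S : Circ} {v w : Vec} {τ : ℝ}
    (e : vec Y = vt A C v w τ) (hY : Legal P Y) (hS : Legal (Y :: P) S)
    (hSw : 0 ≤ Bf (wt A C w τ) (vec S)) : Outer P (S :: Y :: P) A C Y v w τ := by
  refine ⟨(hP.cons hY).cons hS, fun D hD => List.mem_cons_of_mem _ (List.mem_cons_of_mem _ hD),
    List.mem_cons_of_mem _ List.mem_cons_self, e, fun D hD => ?_⟩
  rcases List.mem_cons.1 hD with rfl | hD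
  · exact Or.inr (Or.inr hSw)
  · rcases List.mem_cons.1 hD with rfl | hD
    · exact Or.inr (Or.inl rfl)
    · exact Or.inl hD

/-- If the face `A Y Z` is destroyed by `S` then the outer side is still free. -/
theorem outer_next {P Q : List Circ} {A C Y Z S : Circ} {v w : Vec}
    (F : Frame A C v w) {σ : ℝ} (hA : A ∈ P) (hC : C ∈ P)
    (hO : Outer P Q A C Y v w σ)
    (hZ : vec Z = vec A + vec C + vec Y + (2 : ℝ) • (-wt A C w σ))
    (hZ' : vec Z = vt A C v w (σ - 1)) (hl : Legal Q Z) (hS : Legal (Z :: Q) S)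
    (hSw : -1 < Bf (vec A + vec Y + -wt A C w σ) (vec S)) :
    Outer P (S :: Z :: Q) A C Z v w (σ - 1) := by
  have hA' : A ∈ Q := hO.sub A hA
  have hC' : C ∈ Q := hO.sub C hC
  refine ⟨(hO.val.cons hl).cons hS,
    fun D hD => List.mem_cons_of_mem _ (List.mem_cons_of_mem _ (hO.sub D hD)),
    List.mem_cons_of_mem _ List.mem_cons_self, hZ', fun D hD => ?_⟩
  rcases List.mem_cons.1 hD with rfl | hD
  · right; right
    have h1 := hS.B_le (X := Z) List.mem_cons_self
    have h2 := hS.B_le (X := A) (List.mem_cons_of_mem _ hA')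
    have h3 := hS.B_le (X := C) (List.mem_cons_of_mem _ hC')
    rw [hZ] at h1
    rw [wt_back]
    simp only [Bf_add_left, Bf_smul_left, Bf_neg_left, Bf_sub_left] at h1 hSw ⊢
    linarith
  · rcases List.mem_cons.1 hD with rfl | hD
    · exact Or.inr (Or.inl rfl)
    · rcases hO.out D hD with h4 | h4 | h4
      · exact Or.inl h4
      · subst h4
        right; right
        rw [hO.e, wt_vt F]
        linarith
      · by_cases h5 : D = A
        · subst h5
          exact Or.inl hA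
        by_cases h6 : D = C
        · subst h6
          exact Or.inl hC
        right; right
        have e1 : Bf (vec A) (vec D) ≤ -1 := hO.val.le hA' hD (Ne.symm h5)
        have e2 : Bf (vec C) (vec D) ≤ -1 := hO.val.le hC' hD (Ne.symm h6)
        rw [wt_back]
        simp only [Bf_sub_left, Bf_add_left]
        linarith

/-- In two rounds Builder gets circles `Y Z` such that `A C Y Z` are mutually tangent and one
of the faces `A Y Z`, `C Y Z` is live. -/
theorem force_K4 {T : List Circ → Prop} {n : ℕ} {P : List Circ} (hP : Valid P) {A C : Circ}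
    (hA : A ∈ P) (hC : C ∈ P) (hAC : B A C = -1)
    (hT : ∀ Q Y Z, Valid Q → P <:+ Q → Y ∉ P → Z ∉ P → B A Y = -1 → B C Y = -1 →
      B A Z = -1 → B C Z = -1 →
      ((∃ w, Live Q A Y Z w) ∨ ∃ w, Live Q C Y Z w) → ForceN T n Q) :
    ForceN T (n + 2) P := by
  obtain ⟨v, w, F⟩ := exists_frame A C hAC
  obtain ⟨T₀, hT₀⟩ := exists_far_frame hP hA hC v w
  have hf := hT₀ (T₀ + 1) (by linarith)
  have hf' := hT₀ (T₀ + 1 - 1) (by linarith)
  obtain ⟨Y, e, hY⟩ := exists_first F hf
  have hYP := hY.notMem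
  refine ForceN.step Y hY fun S hS => ?_
  have hAY : B A Y = -1 := by rw [B, Bf_comm, e]; exact vt_A F _
  have hCY : B C Y = -1 := by rw [B, Bf_comm, e]; exact vt_C F _
  -- both cases give the same kind of circle
  have main : ∃ (Z : Circ) (u : Vec), vec Z = vec A + vec C + vec Y + (2 : ℝ) • u ∧
      Legal (S :: Y :: P) Z ∧ Live (Z :: S :: Y :: P) A Y Z (vec A + vec Y + u) ∧
      Live (Z :: S :: Y :: P) C Y Z (vec C + vec Y + u) := by
    rcases le_total (Bf (wt A C w (T₀ + 1)) (vec S)) 0 with h | h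
    · obtain ⟨Z, h1, h2, h3, h4, -⟩ := inner_step hP F hA hC hf e hY hS h
      exact ⟨Z, _, h1, h2, h3, h4⟩
    · obtain ⟨Z, h1, -, h2, h3, h4⟩ := outer_step F hA hC hf hf' (outer_first hP e hY hS h)
      exact ⟨Z, _, h1, h2, h3, h4⟩
  obtain ⟨Z, u, hZ, hl, L1, L2⟩ := main
  refine ForceN.step Z hl fun S' hS' => ?_
  have hV : Valid (S' :: Z :: S :: Y :: P) := (((hP.cons hY).cons hS).cons hl).cons hS'
  have hi : Ind (Z :: S :: Y :: P) (vec A + vec Y + u) (vec C + vec Y + u) := by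
    have h := ind_child (P := S :: Y :: P) (X := Y) (Y := A) (Z := C) (w := u)
      (List.mem_cons_of_mem _ List.mem_cons_self) (by rw [hZ]; abel)
    rwa [add_comm (vec Y) (vec A), add_comm (vec Y) (vec C)] at h
  refine hT _ Y Z hV ?_ hYP ?_ hAY hCY L1.XZ L2.XZ ?_
  · exact ⟨[S', Z, S, Y], rfl⟩
  · exact fun h => hl.notMem (List.mem_cons_of_mem _ (List.mem_cons_of_mem _ h))
  · rcases hi.alive hS' with h | h
    · exact Or.inl ⟨_, L1.cons h⟩
    · exact Or.inr ⟨_, L2.cons h⟩

end Pool.Agent.H87.CPG
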