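import Pool.Agent.H87.CPG.Rim

/-!
Rooted copies of wheels.
-/

set_option autoImplicit false

namespace Pool.Agent.H87.CPG

/-- The packing `Q` contains a copy of `K`, with `a` at the circle `A` and `b` at the circle
`C`; the other circles are not in `P`. -/
def Rooted {W : Type} (K : SimpleGraph W) (a b : W) (P : List Circ) (A C : Circ)
    (Q : List Circ) : Prop :=
  ∃ g : W → Circ, Function.Injective g ∧ g a = A ∧ g b = C ∧ (∀ x, g x ∈ Q) ∧
    (∀ x, x ≠ a → x ≠ b → g x ∉ P) ∧ ∀ x y, K.Adj x y → B (g x) (g y) = -1

/-- Builder can build `K` on every tangent pair, at every edge of `K`. -/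
def Flex {W : Type} (K : SimpleGraph W) : Prop :=
  ∀ a b, K.Adj a b → ∃ N, ∀ (P : List Circ) (A C : Circ), Valid P → A ∈ P → C ∈ P →
    B A C = -1 → ForceN (Rooted K a b P A C) N P

/-- a closed path around `H` -/
structure Cyc {n : ℕ} (Q : List Circ) (H : Circ) (c : ZMod n → Circ) : Prop where
  mH : H ∈ Q
  inj : Function.Injective c
  mem : ∀ k, c k ∈ Q
  hub : ∀ k, B H (c k) = -1
  adj : ∀ k, B (c k) (c (k + 1)) = -1

theorem Cyc.shift {n : ℕ} {Q : List Circ} {H : Circ} {c : ZMod n → Circ} (h : Cyc Q H c)
    (t : ZMod n) : Cyc Q H fun k => c (k + t) := by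
  refine ⟨h.mH, fun x y hxy => add_right_cancel (h.inj hxy), fun k => h.mem _,
    fun k => h.hub _, fun k => ?_⟩
  have := h.adj (k + t)
  rwa [show k + t + 1 = k + 1 + t by ring] at this

theorem Cyc.flip {n : ℕ} {Q : List Circ} {H : Circ} {c : ZMod n → Circ} (h : Cyc Q H c)
    (t : ZMod n) : Cyc Q H fun k => c (t - k) := by
  refine ⟨h.mH, fun x y hxy => sub_right_injective (h.inj hxy), fun k => h.mem _,
    fun k => h.hub _, fun k => ?_⟩
  have := h.adj (t - (k + 1))
  rw [B_comm]
  rwa [show t - (k + 1) + 1 = t - k by ring] at this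

theorem cyc_of_rim {P Q R : List Circ} {H : Circ} {n : ℕ} (hn : n ≠ 0)
    (h : HasRim P H R n Q) : ∃ c : ZMod n → Circ, Cyc Q H c ∧ (∀ k, c k ∉ R → c k ∉ P) ∧
      (∀ p, R = [p] → ∃ k, c k = p) ∧ ∀ p q, R = [p, q] → ∃ k, c k = p ∧ c (k + 1) = q := by
  obtain ⟨y, M, x, hR, hxy, hlen, hin, hnew⟩ := h
  obtain ⟨L, hL⟩ : ∃ L, L = y :: (M ++ [x]) := ⟨_, rfl⟩
  rw [← hL] at hR hlen hin hnew
  haveI : NeZero n := ⟨hn⟩
  have hv : ∀ k : ZMod n, k.val < L.length := fun k => by rw [hlen]; exact ZMod.val_lt k
  have hfirst : ∀ (h0 : 0 < L.length), L[0] = y := by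
    intro h0
    simp only [hL, List.getElem_cons_zero]
  have hlast : ∀ (i : ℕ) (hi : i < L.length), i + 1 = n → L[i] = x := by
    intro i hi hin
    have h1 : L = (y :: M) ++ [x] := hL
    have h2 : i = (y :: M).length := by
      have h3 : L.length = (y :: M).length + 1 := by rw [h1]; simp
      omega
    subst h2
    simp only [h1, List.getElem_concat_length]
  have hsucc : ∀ k : ZMod n, k.val + 1 < n → (k + 1).val = k.val + 1 := by
    intro k hk
    rw [ZMod.val_add, ZMod.val_one'' (by omega), Nat.mod_eq_of_lt hk]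
  have hzero : ∀ k : ZMod n, k.val + 1 = n → (k + 1).val = 0 := by
    intro k hk
    have h1 : k + 1 = 0 := by
      have h2 : ((k.val + 1 : ℕ) : ZMod n) = 0 := by rw [hk]; exact ZMod.natCast_self n
      rwa [Nat.cast_add, ZMod.natCast_zmod_val, Nat.cast_one] at h2
    rw [h1, ZMod.val_zero]
  have hcast : ∀ i : ℕ, i < n → ((i : ZMod n)).val = i := fun i hi => by
    rw [ZMod.val_natCast, Nat.mod_eq_of_lt hi]
  refine ⟨fun k => L[k.val]'(hv k), ⟨hR.mH, ?_, fun k => hR.mem _ (List.getElem_mem _),
    fun k => hR.hub _ (List.getElem_mem _), fun k => ?_⟩,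
    fun k hk => hnew _ (List.getElem_mem _) hk, ?_, ?_⟩
  · intro k l hkl
    have := (List.Nodup.getElem_inj_iff hR.nodup).1 hkl
    exact ZMod.val_injective n this
  · by_cases hk : k.val + 1 < n
    · have h1 := (List.isChain_iff_getElem.1 hR.chain) k.val (by omega)
      simp only [hsucc k hk]
      exact h1
    · have hk' : k.val + 1 = n := by
        have := ZMod.val_lt k
        omega
      simp only [hzero k hk', hfirst, hlast k.val (hv k) hk']
      exact hxy
  · rintro p rfl
    obtain ⟨s, t, hst⟩ := hin
    have hs : s.length < n := by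
      rw [← hlen, ← hst]
      simp only [List.length_append, List.length_cons, List.length_nil]
      omega
    refine ⟨(s.length : ZMod n), ?_⟩
    simp only [hcast _ hs]
    simp only [← hst, List.append_assoc, List.cons_append, List.nil_append,
      List.getElem_append_right (le_refl _), Nat.sub_self, List.getElem_cons_zero]
  · rintro p q rfl
    obtain ⟨s, t, hst⟩ := hin
    have hs : s.length + 1 < n := by
      rw [← hlen, ← hst]
      simp only [List.length_append, List.length_cons, List.length_nil]
      omega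
    have hs' : s.length < n := by omega
    refine ⟨(s.length : ZMod n), ?_, ?_⟩
    · simp only [hcast _ hs']
      simp only [← hst, List.append_assoc, List.cons_append, List.nil_append,
        List.getElem_append_right (le_refl _), Nat.sub_self, List.getElem_cons_zero]
    · have h5 : ((s.length : ZMod n) + 1).val = s.length + 1 := by
        rw [hsucc _ (by rw [hcast _ hs']; exact hs), hcast _ hs']
      simp only [h5]
      simp only [← hst, List.append_assoc, List.cons_append, List.nil_append]
      rw [List.getElem_append_right (by omega)]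
      simp

theorem wheel_rooted {n : ℕ} {P Q : List Circ} {H : Circ} {c : ZMod n → Circ}
    (h : Cyc Q H c) {a b : Option (ZMod n)} {A C : Circ} (hA : a.elim H c = A)
    (hC : b.elim H c = C) (hnew : ∀ x, x ≠ a → x ≠ b → x.elim H c ∉ P) :
    Rooted (wheel n) a b P A C Q := by
  have hne : ∀ k, H ≠ c k := fun k => ne_of_B (h.hub k)
  refine ⟨fun x => x.elim H c, ?_, hA, hC, ?_, hnew, ?_⟩
  · intro x y hxy
    cases x with
    | none =>
      cases y with
      | none => rfl
      | some j => exact absurd hxy (hne j)
    | some i =>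
      cases y with
      | none => exact absurd hxy.symm (hne i)
      | some j => exact congrArg some (h.inj hxy)
  · intro x
    cases x with
    | none => exact h.mH
    | some i => exact h.mem i
  · have key : ∀ x y : Option (ZMod n), x ≠ y →
        (x = none ∨ ∃ i, x = some i ∧ y = some (i + 1)) →
          B (x.elim H c) (y.elim H c) = -1 := by
      rintro x y hxy (rfl | ⟨i, rfl, rfl⟩)
      · cases y with
        | none => exact absurd rfl hxy
        | some j => exact h.hub j
      · exact h.adj i
    intro x y hxy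
    obtain ⟨h1, h2 | h2⟩ := hxy
    · exact key x y h1 h2
    · rw [B_comm]
      exact key y x h1.symm h2

theorem flex_wheel (n : ℕ) (hn : 3 ≤ n) : Flex (wheel n) := by
  obtain ⟨m, rfl⟩ : ∃ m, n = m + 3 := ⟨n - 3, by omega⟩
  have hn0 : m + 3 ≠ 0 := by omega
  intro a b hab
  refine ⟨m + 2, fun P A C hP hA hC hAC => ?_⟩
  have hCA : B C A = -1 := by rw [B_comm]; exact hAC
  obtain ⟨hne, hab⟩ := hab
  -- the two types of edges
  have spoke : ∀ i : ZMod (m + 3), ∀ A C : Circ, A ∈ P → C ∈ P → B A C = -1 →
      ForceN (fun Q => ∃ c : ZMod (m + 3) → Circ, Cyc Q A c ∧ c i = C ∧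
        ∀ k, k ≠ i → c k ∉ P) (m + 2) P := by
    intro i A C hA hC hAC
    refine (force_spoke hP hA hC hAC m).imp hP fun Q _ _ h => ?_
    obtain ⟨c, hc, hnew, h1, -⟩ := cyc_of_rim hn0 h
    obtain ⟨k, hk⟩ := h1 C rfl
    have e : i + (k - i) = k := by ring
    refine ⟨fun j => c (j + (k - i)), hc.shift _, ?_, fun j hj => hnew _ ?_⟩
    · simp only [e]
      exact hk
    · simp only [List.mem_singleton]
      intro h2
      rw [← hk] at h2
      have h3 := hc.inj h2
      exact hj (by linear_combination h3)
  have rim : ∀ i j : ZMod (m + 3), (j = i + 1 ∨ i = j + 1) →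
      ForceN (fun Q => ∃ (H : Circ) (c : ZMod (m + 3) → Circ), H ∉ P ∧ Cyc Q H c ∧ c i = A ∧
        c j = C ∧ ∀ k, k ≠ i → k ≠ j → c k ∉ P) (m + 2) P := by
    intro i j hij
    refine (force_rim hP hA hC hAC m).imp hP fun Q _ _ h => ?_
    obtain ⟨H, hHP, h⟩ := h
    -- find an arrangement
    have main : ∃ c : ZMod (m + 3) → Circ, Cyc Q H c ∧ c i = A ∧ c j = C ∧
        ∀ k, c k ≠ A → c k ≠ C → c k ∉ P := by
      rcases h with h | h
      · obtain ⟨c, hc, hnew, -, h2⟩ := cyc_of_rim hn0 h
        obtain ⟨k, hk, hk1⟩ := h2 A C rfl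
        have hnew' : ∀ k, c k ≠ A → c k ≠ C → c k ∉ P := fun k h3 h4 =>
          hnew k (by simp [h3, h4])
        rcases hij with rfl | rfl
        · refine ⟨fun l => c (l + (k - i)), hc.shift _, ?_, ?_, fun l => hnew' _⟩
          · simp only [show i + (k - i) = k by ring]
            exact hk
          · simp only [show i + 1 + (k - i) = k + 1 by ring]
            exact hk1
        · refine ⟨fun l => c ((k + (j + 1)) - l), hc.flip _, ?_, ?_, fun l => hnew' _⟩
          · simp only [show k + (j + 1) - (j + 1) = k by ring]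
            exact hk
          · simp only [show k + (j + 1) - j = k + 1 by ring]
            exact hk1
      · obtain ⟨c, hc, hnew, -, h2⟩ := cyc_of_rim hn0 h
        obtain ⟨k, hk, hk1⟩ := h2 C A rfl
        have hnew' : ∀ k, c k ≠ A → c k ≠ C → c k ∉ P := fun k h3 h4 =>
          hnew k (by simp [h3, h4])
        rcases hij with rfl | rfl
        · refine ⟨fun l => c ((k + 1 + i) - l), hc.flip _, ?_, ?_, fun l => hnew' _⟩
          · simp only [show k + 1 + i - i = k + 1 by ring]
            exact hk1
          · simp only [show k + 1 + i - (i + 1) = k by ring]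
            exact hk
        · refine ⟨fun l => c (l + (k - j)), hc.shift _, ?_, ?_, fun l => hnew' _⟩
          · simp only [show j + 1 + (k - j) = k + 1 by ring]
            exact hk1
          · simp only [show j + (k - j) = k by ring]
            exact hk
    obtain ⟨c, hc, h1, h2, h3⟩ := main
    refine ⟨H, c, hHP, hc, h1, h2, fun k hk1 hk2 => h3 k ?_ ?_⟩
    · rw [← h1]
      exact fun h => hk1 (hc.inj h)
    · rw [← h2]
      exact fun h => hk2 (hc.inj h)
  cases a with
  | none =>
    cases b with
    | none => exact absurd rfl hne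
    | some i =>
      refine (spoke i A C hA hC hAC).imp hP fun Q _ _ h => ?_
      obtain ⟨c, hc, h1, h2⟩ := h
      refine wheel_rooted hc rfl h1 fun x hx1 hx2 => ?_
      cases x with
      | none => exact absurd rfl hx1
      | some k => exact h2 k fun h => hx2 (congrArg some h)
  | some i =>
    cases b with
    | none =>
      refine (spoke i C A hC hA hCA).imp hP fun Q _ _ h => ?_
      obtain ⟨c, hc, h1, h2⟩ := h
      refine wheel_rooted hc h1 rfl fun x hx1 hx2 => ?_
      cases x with
      | none => exact absurd rfl hx2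
      | some k => exact h2 k fun h => hx1 (congrArg some h)
    | some j =>
      have hij : j = i + 1 ∨ i = j + 1 := by
        rcases hab with (h | ⟨k, h1, h2⟩) | (h | ⟨k, h1, h2⟩)
        · exact absurd h (by simp)
        · left
          rw [Option.some.injEq] at h1 h2
          rw [h2, h1]
        · exact absurd h (by simp)
        · right
          rw [Option.some.injEq] at h1 h2
          rw [h2, h1]
      refine (rim i j hij).imp hP fun Q _ _ h => ?_
      obtain ⟨H, c, hH, hc, h1, h2, h3⟩ := h
      refine wheel_rooted hc h1 h2 fun x hx1 hx2 => ?_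
      cases x with
      | none => exact hH
      | some k => exact h3 k (fun h => hx1 (congrArg some h)) fun h => hx2 (congrArg some h)

end Pool.Agent.H87.CPG
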